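import Mathlib

/-!
# The numbers of points of four orbits
-/

namespace Pool.Agent.H18.PG

/-- two odd numbers `≥ 5` with `1/n₁ + 1/n₂ = 1/3 + 3/N` -/
lemma pair (a b N n1 n2 : ℕ) (h1 : a * n1 = N) (h2 : b * n2 = N) (o1 : Odd n1) (o2 : Odd n2)
    (g1 : 5 ≤ n1) (g2 : 5 ≤ n2) (hN : 0 < N) (hs : 3 * (a + b) = N + 9) :
    (N = 45 ∨ N = 315) ∧ (n1 = 5 ∨ n1 = 7) ∧ (n2 = 5 ∨ n2 = 7) := by
  -- symmetric in the two indices; first the case `n1 = 5`
  have key : ∀ a b n1 n2 : ℕ, a * n1 = N → b * n2 = N → Odd n2 → 5 ≤ n2 → 3 * (a + b) = N + 9 →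
      n1 = 5 → (N = 45 ∨ N = 315) ∧ (n1 = 5 ∨ n1 = 7) ∧ (n2 = 5 ∨ n2 = 7) := by
    intro a b n1 n2 h1 h2 o2 g2 hs e
    subst e
    by_cases h5 : n2 = 5
    · subst h5
      refine ⟨Or.inl ?_, Or.inl rfl, Or.inl rfl⟩
      omega
    by_cases h7 : n2 = 7
    · subst h7
      refine ⟨Or.inr ?_, Or.inl rfl, Or.inr rfl⟩
      omega
    have h9 : 9 ≤ n2 := by
      obtain ⟨k, hk⟩ := o2
      omega
    have h10 : 9 * b ≤ N := by
      calc 9 * b = b * 9 := by ring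
        _ ≤ b * n2 := Nat.mul_le_mul_left _ h9
        _ = N := h2
    omega
  by_cases e1 : n1 = 5
  · exact key a b n1 n2 h1 h2 o2 g2 hs e1
  by_cases e2 : n2 = 5
  · obtain ⟨h, h3, h4⟩ := key b a n2 n1 h2 h1 o1 g1 (by omega) e2
    exact ⟨h, h4, h3⟩
  have h3 : 7 ≤ n1 := by
    obtain ⟨k, hk⟩ := o1
    omega
  have h4 : 7 ≤ n2 := by
    obtain ⟨k, hk⟩ := o2
    omega
  have h5 : 7 * a ≤ N := by
    calc 7 * a = a * 7 := by ring
      _ ≤ a * n1 := Nat.mul_le_mul_left _ h3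
      _ = N := h1
  have h6 : 7 * b ≤ N := by
    calc 7 * b = b * 7 := by ring
      _ ≤ b * n2 := Nat.mul_le_mul_left _ h4
      _ = N := h2
  omega

/-- an odd number `≥ 3` is `3` or `≥ 5`, and correspondingly for the number of points -/
lemma three_or (m n N : ℕ) (h : m * n = N) (o : Odd n) (g : 3 ≤ n) :
    (n = 3 ∧ 3 * m = N) ∨ (5 ≤ n ∧ 5 * m ≤ N) := by
  by_cases h3 : n = 3
  · left
    refine ⟨h3, ?_⟩
    rw [← h, h3]; ring
  · right
    have h5 : 5 ≤ n := by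
      obtain ⟨k, hk⟩ := o
      omega
    refine ⟨h5, ?_⟩
    calc 5 * m = m * 5 := by ring
      _ ≤ m * n := Nat.mul_le_mul_left _ h5
      _ = N := h

/-- four orbits with `N + 3` points -/
theorem four (m n : Fin 4 → ℕ) (N : ℕ) (hN : 0 < N) (h : ∀ i, m i * n i = N)
    (o : ∀ i, Odd (n i)) (g : ∀ i, 3 ≤ n i) (hs : ∑ i, m i = N + 3) :
    (∃ i, m i = 3 ∧ ∀ j, j ≠ i → n j = 3) ∨
      ((N = 45 ∨ N = 315) ∧ ∀ i, n i = 3 ∨ n i = 5 ∨ n i = 7) := by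
  rw [Fin.sum_univ_four] at hs
  have k0 := three_or _ _ N (h 0) (o 0) (g 0)
  have k1 := three_or _ _ N (h 1) (o 1) (g 1)
  have k2 := three_or _ _ N (h 2) (o 2) (g 2)
  have k3 := three_or _ _ N (h 3) (o 3) (g 3)
  rcases k0 with ⟨e0, f0⟩ | ⟨e0, f0⟩ <;> rcases k1 with ⟨e1, f1⟩ | ⟨e1, f1⟩ <;>
    rcases k2 with ⟨e2, f2⟩ | ⟨e2, f2⟩ <;> rcases k3 with ⟨e3, f3⟩ | ⟨e3, f3⟩
  · left
    refine ⟨0, by omega, fun j hj => ?_⟩
    fin_cases j <;> assumption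
  · left
    refine ⟨3, by omega, fun j hj => ?_⟩
    fin_cases j <;> first | assumption | exact absurd rfl hj
  · left
    refine ⟨2, by omega, fun j hj => ?_⟩
    fin_cases j <;> first | assumption | exact absurd rfl hj
  · right
    obtain ⟨p1, p2, p3⟩ := pair _ _ N _ _ (h 2) (h 3) (o 2) (o 3) e2 e3 hN (by omega)
    refine ⟨p1, fun j => ?_⟩
    fin_cases j <;> simp <;> omega
  · left
    refine ⟨1, by omega, fun j hj => ?_⟩
    fin_cases j <;> first | assumption | exact absurd rfl hj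
  · right
    obtain ⟨p1, p2, p3⟩ := pair _ _ N _ _ (h 1) (h 3) (o 1) (o 3) e1 e3 hN (by omega)
    refine ⟨p1, fun j => ?_⟩
    fin_cases j <;> simp <;> omega
  · right
    obtain ⟨p1, p2, p3⟩ := pair _ _ N _ _ (h 1) (h 2) (o 1) (o 2) e1 e2 hN (by omega)
    refine ⟨p1, fun j => ?_⟩
    fin_cases j <;> simp <;> omega
  · exfalso; omega
  · left
    refine ⟨0, by omega, fun j hj => ?_⟩
    fin_cases j <;> first | assumption | exact absurd rfl hj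
  · right
    obtain ⟨p1, p2, p3⟩ := pair _ _ N _ _ (h 0) (h 3) (o 0) (o 3) e0 e3 hN (by omega)
    refine ⟨p1, fun j => ?_⟩
    fin_cases j <;> simp <;> omega
  · right
    obtain ⟨p1, p2, p3⟩ := pair _ _ N _ _ (h 0) (h 2) (o 0) (o 2) e0 e2 hN (by omega)
    refine ⟨p1, fun j => ?_⟩
    fin_cases j <;> simp <;> omega
  · exfalso; omega
  · right
    obtain ⟨p1, p2, p3⟩ := pair _ _ N _ _ (h 0) (h 1) (o 0) (o 1) e0 e1 hN (by omega)
    refine ⟨p1, fun j => ?_⟩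
    fin_cases j <;> simp <;> omega
  · exfalso; omega
  · exfalso; omega
  · exfalso; omega

end Pool.Agent.H18.PG
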