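import Mathlib
import Pool.Agent.H18.PG.Arith

/-!
# The count of orbits
-/

namespace Pool.Agent.H18.PG

open MulAction

section Orbits

variable {G X : Type} [Group G] [Finite G] [MulAction G X] [Finite X]

omit [Finite G] [Finite X] in
lemma card_orbit_stab (x : X) :
    Nat.card (orbit G x) * Nat.card (stabilizer G x) = Nat.card G := by
  rw [← Nat.card_prod, Nat.card_congr (orbitProdStabilizerEquivGroup G x)]

/-- the number of points of an orbit -/
noncomputable def size (ω : orbitRel.Quotient G X) : ℕ := Nat.card (orbitRel.Quotient.orbit ω)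

omit [Finite G] [Finite X] in
lemma quot_orbit (x : X) :
    size (Quotient.mk'' x : orbitRel.Quotient G X) = Nat.card (orbit G x) := by
  unfold size
  rw [orbitRel.Quotient.orbit_mk]

/-- Burnside's lemma, the orders of the stabilizers and the solution of the resulting equation -/
theorem orbits_cases (hodd : Odd (Nat.card G)) (g₀ : G) (hg₀ : g₀ ≠ 1)
    (h3 : ∀ g : G, g ≠ 1 → Nat.card (fixedBy X g) = 3)
    (hst : ∀ x : X, 3 ≤ Nat.card (stabilizer G x)) :
    (Nat.card X = 3 ∧ ∀ x : X, stabilizer G x = ⊤) ∨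
    (∃ x₀ : X, Nat.card (orbit G x₀) = 3 ∧
      ∀ y : X, y ∉ orbit G x₀ → Nat.card (stabilizer G y) = 3) ∨
    ((Nat.card G = 45 ∨ Nat.card G = 315) ∧ ∀ x : X, Nat.card (stabilizer G x) = 3 ∨
      Nat.card (stabilizer G x) = 5 ∨ Nat.card (stabilizer G x) = 7) := by
  classical
  have : Fintype G := Fintype.ofFinite G
  have : Fintype (orbitRel.Quotient G X) := Fintype.ofFinite _
  set N := Nat.card G with hN
  set m : orbitRel.Quotient G X → ℕ := size with hm
  have hmx : ∀ x : X, m (Quotient.mk'' x : orbitRel.Quotient G X) * Nat.card (stabilizer G x) = N := by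
    intro x
    rw [hm, quot_orbit, card_orbit_stab]
  have hout : ∀ ω : orbitRel.Quotient G X, m ω * Nat.card (stabilizer G ω.out) = N := by
    intro ω
    have h := hmx ω.out
    rwa [show (Quotient.mk'' ω.out : orbitRel.Quotient G X) = ω from Quotient.out_eq' ω] at h
  have hNpos : 0 < N := Nat.card_pos
  have hm1 : ∀ ω, 1 ≤ m ω := by
    intro ω
    rcases Nat.eq_zero_or_pos (m ω) with h | h
    · have := hout ω
      rw [h, zero_mul] at this
      omega
    · exact h
  have hm3 : ∀ ω, 3 * m ω ≤ N := by
    intro ω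
    calc 3 * m ω = m ω * 3 := by ring
      _ ≤ m ω * Nat.card (stabilizer G ω.out) := Nat.mul_le_mul_left _ (hst _)
      _ = N := hout ω
  have hsum : ∑ ω, m ω = Nat.card X := by
    rw [Nat.card_congr (selfEquivSigmaOrbits' G X), Nat.card_sigma]
    rfl
  have hN3 : 3 ≤ N := by
    have h1 : N ≠ 1 := by
      intro h
      rw [hN, Nat.card_eq_one_iff_unique] at h
      exact hg₀ (h.1.elim _ _)
    obtain ⟨k, hk⟩ := hodd
    omega
  set k := Fintype.card (orbitRel.Quotient G X) with hk
  have hB : Nat.card X + 3 * (N - 1) = k * N := by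
    have h1 := Nat.card_congr (sigmaFixedByEquivOrbitsProdGroup G X)
    rw [Nat.card_sigma, Nat.card_prod] at h1
    have h2 : ∑ g : G, Nat.card (fixedBy X g) = Nat.card X + 3 * (N - 1) := by
      rw [← Finset.add_sum_erase _ _ (Finset.mem_univ (1 : G))]
      congr 1
      · refine Nat.card_congr (Equiv.subtypeUnivEquiv fun x => ?_)
        rw [mem_fixedBy, one_smul]
      · rw [Finset.sum_congr rfl fun g hg => h3 g (Finset.ne_of_mem_erase hg),
          Finset.sum_const, Finset.card_erase_of_mem (Finset.mem_univ _), Finset.card_univ,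
          smul_eq_mul, ← Nat.card_eq_fintype_card, mul_comm]
    rw [h2] at h1
    rw [h1, hk, ← Nat.card_eq_fintype_card]
  have hX3 : 3 ≤ Nat.card X := by
    rw [← h3 g₀ hg₀]
    exact Nat.card_le_card_of_injective _ Subtype.val_injective
  have hle1 : 3 * Nat.card X ≤ k * N := by
    rw [← hsum, Finset.mul_sum]
    calc ∑ ω, 3 * m ω ≤ ∑ _ω : orbitRel.Quotient G X, N := Finset.sum_le_sum fun ω _ => hm3 ω
      _ = k * N := by rw [Finset.sum_const, Finset.card_univ, smul_eq_mul]
  have hk4 : k ≤ 4 := by
    by_contra h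
    have h1 : 5 * N ≤ k * N := Nat.mul_le_mul_right _ (by omega)
    omega
  have hk3 : 3 ≤ k := by
    by_contra h
    have h1 : k * N ≤ 2 * N := Nat.mul_le_mul_right _ (by omega)
    omega
  have hk34 : k = 3 ∨ k = 4 := by omega
  rcases hk34 with hk' | hk'
  · left
    have hX : Nat.card X = 3 := by rw [hk'] at hB; omega
    refine ⟨hX, fun x => ?_⟩
    have h1 : ∑ _ω : orbitRel.Quotient G X, 1 = ∑ ω, m ω := by
      rw [hsum, hX, Finset.sum_const, Finset.card_univ, ← hk, hk']
      rfl
    have h2 := (Finset.sum_eq_sum_iff_of_le fun ω _ => hm1 ω).mp h1 (Quotient.mk'' x)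
      (Finset.mem_univ _)
    have h4 := hmx x
    rw [← h2, one_mul] at h4
    exact (Subgroup.card_eq_iff_eq_top _).mp h4
  · right
    have hX : ∑ ω, m ω = N + 3 := by rw [hsum]; rw [hk'] at hB; omega
    let e : Fin 4 ≃ orbitRel.Quotient G X := (Fintype.equivFinOfCardEq (by rw [← hk, hk'])).symm
    have h4 := four (fun i => m (e i)) (fun i => Nat.card (stabilizer G (e i).out)) N hNpos
      (fun i => hout (e i)) (fun i => hodd.of_dvd_nat (Subgroup.card_subgroup_dvd_card _))
      (fun i => hst _) (by rw [← hX]; exact Equiv.sum_comp e m)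
    have hstab : ∀ x : X, ∀ i, e i = Quotient.mk'' x →
        Nat.card (stabilizer G x) = Nat.card (stabilizer G (e i).out) := by
      intro x i hi
      have h5 := hmx x
      rw [← hi, ← hout (e i)] at h5
      exact Nat.eq_of_mul_eq_mul_left (hm1 (e i)) h5
    rcases h4 with ⟨i, hi, hj⟩ | ⟨h5, h6⟩
    · left
      refine ⟨(e i).out, ?_, fun y hy => ?_⟩
      · rw [← quot_orbit, show (Quotient.mk'' (e i).out : orbitRel.Quotient G X) = e i from
          Quotient.out_eq' _]
        exact hi
      · obtain ⟨j, hj'⟩ := e.surjective (Quotient.mk'' y)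
        rw [hstab y j hj']
        apply hj
        rintro rfl
        apply hy
        rw [← orbitRel.Quotient.orbit_mk, show (Quotient.mk'' (e j).out :
          orbitRel.Quotient G X) = e j from Quotient.out_eq' _, hj', orbitRel.Quotient.orbit_mk]
        exact mem_orbit_self y
    · right
      refine ⟨h5, fun x => ?_⟩
      obtain ⟨j, hj'⟩ := e.surjective (Quotient.mk'' x)
      rw [hstab x j hj']
      exact h6 j

end Orbits

end Pool.Agent.H18.PG
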