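import Pool.Agent.H93.PF.Defs

/-!
# Curves of degree one and two

`FakePlaneAction n` (in `Pool.Agent.H93.PF.Defs`) collects the numerical data of a symplectomorphism
`g` of order `n` of a closed simply connected symplectic four-manifold `M` with `b₂ = 1`, `M ≠ ℂP²`,
and of an invariant curve in the class `4H`. Here the class `H` is used as well.
-/

namespace Pool.Agent.H18.PG

open Finset Pool.Agent.H93.PF

/-- The data of an invariant irreducible curve `C` in the class `d H`, with an upper bound for the
sum `D` of the `δ`-invariants of the branches of `C`. Move the branches at every singular point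
apart, replace their double points by handles and connect the remaining cusps: this gives a surface
of genus `k` in the class `d H` with one cone point, on the connected sum `K` of the links of the
branches, where `k + D` is the genus `(d ^ 2 + 3 d + 2) / 2` of the adjunction formula. Outside of a
small ball at the cone point `M` is negative definite with the other orientation, and `τ(K) = D`, so
`2 D + d - d ^ 2 ≤ 2 k` (Ozsváth and Szabó, 2003, Theorem 1.1). Hence `2 D ≤ d (d + 1)`. -/
structure SharpCurve (n : ℕ) (w h : Fin 3 → ZMod n) (d : ℕ) extends InvCurve n w h d where
  cusp : ∑ s, n / stab s * selfTerm (ord s) ≤ d * (d + 1)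

/-- The data of a symplectomorphism `g` of order `n` as in `FakePlaneAction n`, with the index of
the Dirac operator twisted by the line bundle `H`. -/
structure PlaneAction (n : ℕ) extends FakePlaneAction n where
  /-- The multiplicity of the character `c` of the group generated by `g` in the index of the Dirac
  operator twisted by `H`. -/
  ind : ZMod n → ℤ
  /-- The index is `χ(H) = (H · H - K · H) / 2 + 1 = 0`. -/
  ind_sum : ∑ k ∈ range n, ind (k : ZMod n) = 0
  /-- The Lefschetz formula for the index. -/
  lefschetz : ∀ ζ : ℂ, ζ ^ n = 1 → ζ ≠ 1 →
    ∑ k ∈ range n, (ind (k : ZMod n) : ℂ) * ζ ^ k = ∑ i, ζ ^ (h i).val /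
      ((1 - ζ ^ (w (i + 1) - w i).val) * (1 - ζ ^ (w (i + 2) - w i).val))
  /-- If `c` occurs in the index, the corresponding lift of `H` or that of `K - H = 2H` contains
  an invariant pseudoholomorphic curve, so there is an invariant irreducible curve in the class `H`
  or `2H`. -/
  low : (∃ c, 0 < ind c) → ∃ d, (d = 1 ∨ d = 2) ∧ Nonempty (SharpCurve n w h d)

end Pool.Agent.H18.PG
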