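import Pool.Agent.H93.PF.Examples
import Pool.Agent.H18.PG.LowDefs

/-!
# The data exist for the orders three, five, seven and eleven
-/

namespace Pool.Agent.H18.PG

open Finset Pool.Agent.H93.PF

/-- The character of `ZMod n` given by a root of unity. -/
lemma val_add_pow {n : ℕ} [NeZero n] {z : ℂ} (hz : z ^ n = 1) (a b : ZMod n) :
    z ^ (a + b).val = z ^ a.val * z ^ b.val := by
  rw [← pow_add, ZMod.val_add]
  conv_rhs => rw [← Nat.div_add_mod (a.val + b.val) n, pow_add, pow_mul, hz, one_pow, one_mul]

/-- For `h = -w + e` the right side of the Lefschetz formula is zero. -/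
lemma lefschetz_zero {p : ℕ} (hp : p.Prime) {w h : Fin 3 → ZMod p}
    (hw : ∀ i j, i ≠ j → IsUnit (w i - w j)) {e : ZMod p} (he : ∀ i, h i = -w i + e) {z : ℂ}
    (hz : z ^ p = 1) (hz1 : z ≠ 1) :
    ∑ i, z ^ (h i).val /
      ((1 - z ^ (w (i + 1) - w i).val) * (1 - z ^ (w (i + 2) - w i).val)) = 0 := by
  have : Fact p.Prime := ⟨hp⟩
  have hone : ∀ a : ZMod p, z ^ a.val = 1 → a = 0 := by
    intro a ha
    have h1 : orderOf z ∣ p := orderOf_dvd_of_pow_eq_one hz
    have h2 : orderOf z ∣ a.val := orderOf_dvd_of_pow_eq_one ha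
    have h3 : orderOf z = p := by
      rcases (Nat.dvd_prime hp).1 h1 with h4 | h4
      · exact absurd (orderOf_eq_one_iff.1 h4) hz1
      · exact h4
    rw [h3] at h2
    have h4 : a.val < p := ZMod.val_lt a
    have h5 : a.val = 0 := Nat.eq_zero_of_dvd_of_lt h2 h4
    exact (ZMod.val_eq_zero a).1 h5
  set x : Fin 3 → ℂ := fun i => z ^ (w i).val with hx
  have hz0 : z ≠ 0 := by
    rintro rfl
    rw [zero_pow hp.ne_zero] at hz
    exact zero_ne_one hz
  have hx0 : ∀ i, x i ≠ 0 := fun i => pow_ne_zero _ hz0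
  have hdiff : ∀ i j, z ^ (w j - w i).val * x i = x j := by
    intro i j
    rw [hx]
    simp only
    rw [← val_add_pow hz, sub_add_cancel]
  have hne : ∀ i j, i ≠ j → x i - x j ≠ 0 := by
    intro i j hij h0
    have h1 := hdiff i j
    rw [← sub_eq_zero.1 h0] at h1
    have h2 : z ^ (w j - w i).val = 1 := by
      have := mul_right_cancel₀ (hx0 i) (h1.trans (one_mul (x i)).symm)
      exact this
    exact (hw j i hij.symm).ne_zero (hone _ h2)
  have hterm : ∀ i j k : Fin 3, i ≠ j → i ≠ k → z ^ (h i).val /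
      ((1 - z ^ (w j - w i).val) * (1 - z ^ (w k - w i).val))
      = z ^ e.val * x i / ((x i - x j) * (x i - x k)) := by
    intro i j k hij hik
    have h1 : z ^ (h i).val * x i = z ^ e.val := by
      rw [hx]
      simp only
      rw [← val_add_pow hz, he i]
      congr 2
      ring
    have h2 : (1 - z ^ (w j - w i).val) * x i = x i - x j := by
      rw [sub_mul, hdiff, one_mul]
    have h3 : (1 - z ^ (w k - w i).val) * x i = x i - x k := by
      rw [sub_mul, hdiff, one_mul]
    have h4 : 1 - z ^ (w j - w i).val ≠ 0 := by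
      intro h0
      rw [h0, zero_mul] at h2
      exact hne i j hij h2.symm
    have h5 : 1 - z ^ (w k - w i).val ≠ 0 := by
      intro h0
      rw [h0, zero_mul] at h3
      exact hne i k hik h3.symm
    rw [div_eq_div_iff (mul_ne_zero h4 h5) (mul_ne_zero (hne i j hij) (hne i k hik)), ← h1, ← h2,
      ← h3]
    ring
  rw [Fin.sum_univ_three]
  simp only [Fin.isValue, zero_add, Fin.reduceAdd]
  rw [hterm 0 1 2 (by decide) (by decide), hterm 1 2 0 (by decide) (by decide),
    hterm 2 0 1 (by decide) (by decide)]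
  have a1 := hne 0 1 (by decide)
  have a2 := hne 0 2 (by decide)
  have a3 := hne 1 2 (by decide)
  have a4 := hne 1 0 (by decide)
  have a5 := hne 2 0 (by decide)
  have a6 := hne 2 1 (by decide)
  field_simp
  ring

/-- For a prime order `p` with `h = -w + e` the index of `H` is zero. -/
lemma toPlane {p : ℕ} (hp : p.Prime) (A : FakePlaneAction p) {e : ZMod p}
    (he : ∀ i, A.h i = -A.w i + e) : Nonempty (PlaneAction p) :=
  ⟨{ A with
      ind := 0
      ind_sum := by simp
      lefschetz := by
        intro z hz hz1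
        rw [lefschetz_zero hp A.isUnit_sub he hz hz1]
        simp
      low := by
        rintro ⟨c, hc⟩
        exact absurd hc (lt_irrefl 0) }⟩

/-- The orders five, seven, eleven. -/
lemma plane_of_prime {p : ℕ} (hp : p = 5 ∨ p = 7 ∨ p = 11) : Nonempty (PlaneAction p) := by
  have hpp : p.Prime := by rcases hp with rfl | rfl | rfl <;> norm_num
  have : Fact p.Prime := ⟨hpp⟩
  have h3 : ¬ 3 ∣ p := by rcases hp with rfl | rfl | rfl <;> norm_num
  obtain ⟨A⟩ : Nonempty (FakePlaneAction p) := by
    rcases hp with rfl | rfl | rfl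
    · exact nonempty_five
    · exact nonempty_seven
    · exact nonempty_eleven
  obtain ⟨e, he⟩ := exists_const A.isUnit_sub A.canonical A.euler (Or.inl h3)
  exact toPlane hpp A he

/-- A curve for the order three. -/
def curve3 : InvCurve 3 ![0, 1, 2] (fun i => -(![0, 1, 2] : Fin 3 → ZMod 3) i) 4 where
  genus := 15
  quotGenus := 5
  delta := 0
  num := 2
  pt := ![0, 2]
  stab := fun _ => 3
  stab_dvd := by decide
  one_lt_stab := by decide
  u := ![1, 2]
  coprime := by decide
  ord := ![(1, 2), (2, 1)]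
  ord_pos := by decide
  ord_fst := by decide
  ord_snd := by decide
  rotation := by decide
  degree_eq := by decide
  adjunction := by decide
  hurwitz := by decide
  index := by decide
  delta_ge := by decide

lemma plane_three : Nonempty (PlaneAction 3) := by
  have h : ∀ i j : Fin 3, i ≠ j →
      (![0, 1, 2] : Fin 3 → ZMod 3) i - (![0, 1, 2] : Fin 3 → ZMod 3) j ≠ 0 := by decide
  have : Fact (Nat.Prime 3) := ⟨by norm_num⟩
  exact toPlane (by norm_num) (ofCurve _ (isUnit_of h) curve3) (e := 0) fun i => by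
    show -_ = -_ + 0
    rw [add_zero]
    rfl

end Pool.Agent.H18.PG
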