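import Mathlib

/-!
# A finite group of odd order of complex `2 × 2` matrices has a common eigenvector
-/

namespace Pool.Agent.H18.PG

open Matrix

/-- entries -/
lemma mat_two (A : Matrix (Fin 2) (Fin 2) ℂ) : ∃ a b c d, A = !![a, b; c, d] :=
  ⟨A 0 0, A 0 1, A 1 0, A 1 1, by ext i j; fin_cases i <;> fin_cases j <;> rfl⟩

/-- the trace of the square -/
lemma trace_mul_self (A : Matrix (Fin 2) (Fin 2) ℂ) :
    (A * A).trace = A.trace ^ 2 - 2 * A.det := by
  obtain ⟨a, b, c, d, rfl⟩ := mat_two A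
  simp [Matrix.trace_fin_two, Matrix.det_fin_two]
  ring

/-- the trace of the inverse -/
lemma trace_inv (A B : Matrix (Fin 2) (Fin 2) ℂ) (h : B * A = 1) :
    B.trace = B.det * A.trace := by
  have h1 : B * (A * A.adjugate) = A.adjugate := by rw [← Matrix.mul_assoc, h, Matrix.one_mul]
  rw [Matrix.mul_adjugate, Matrix.mul_smul, Matrix.mul_one] at h1
  have h2 : B.det * A.det = 1 := by rw [← Matrix.det_mul, h, Matrix.det_one]
  have h3 : A.adjugate.trace = A.trace := by
    obtain ⟨a, b, c, d, rfl⟩ := mat_two A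
    simp [Matrix.trace_fin_two, Matrix.adjugate_fin_two]
    ring
  have h4 : A.det * B.trace = A.trace := by
    rw [← h3, ← h1, Matrix.trace_smul, smul_eq_mul]
  calc B.trace = (B.det * A.det) * B.trace := by rw [h2, one_mul]
    _ = B.det * (A.det * B.trace) := by ring
    _ = B.det * A.trace := by rw [h4]

/-- eigenvalues of a matrix of finite order are roots of unity -/
lemma eigen_pow (A : Matrix (Fin 2) (Fin 2) ℂ) (n : ℕ) (hA : A ^ n = 1) (l : ℂ) (v : Fin 2 → ℂ)
    (hv0 : v ≠ 0) (hv : A *ᵥ v = l • v) : l ^ n = 1 := by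
  have h : ∀ k : ℕ, (A ^ k) *ᵥ v = (l ^ k) • v := by
    intro k
    induction k with
    | zero => rw [pow_zero, pow_zero, Matrix.one_mulVec, one_smul]
    | succ k ih =>
      rw [pow_succ, ← Matrix.mulVec_mulVec, hv, Matrix.mulVec_smul, ih, smul_smul, pow_succ,
        mul_comm]
  have h1 := h n
  rw [hA, Matrix.one_mulVec] at h1
  have h2 : (1 - l ^ n) • v = 0 := by rw [sub_smul, one_smul, ← h1, sub_self]
  rcases smul_eq_zero.mp h2 with h3 | h3
  · exact (sub_eq_zero.mp h3).symm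
  · exact absurd h3 hv0

/-- the two eigenvalues -/
lemma exists_eigen (A : Matrix (Fin 2) (Fin 2) ℂ) : ∃ l m : ℂ, A.trace = l + m ∧ A.det = l * m ∧
    (A - l • (1 : Matrix (Fin 2) (Fin 2) ℂ)).det = 0 ∧
    (A - m • (1 : Matrix (Fin 2) (Fin 2) ℂ)).det = 0 := by
  obtain ⟨s, hs⟩ := IsAlgClosed.exists_pow_nat_eq (A.trace ^ 2 - 4 * A.det) (n := 2) (by norm_num)
  have key : ∀ x : ℂ, (A - x • (1 : Matrix (Fin 2) (Fin 2) ℂ)).det
      = x ^ 2 - A.trace * x + A.det := by
    intro x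
    obtain ⟨a, b, c, d, rfl⟩ := mat_two A
    simp [Matrix.trace_fin_two, Matrix.det_fin_two]
    ring
  refine ⟨(A.trace + s) / 2, (A.trace - s) / 2, by ring, ?_, ?_, ?_⟩
  · linear_combination (1 / 4) * hs
  · rw [key]; linear_combination (1 / 4) * hs
  · rw [key]; linear_combination (1 / 4) * hs

lemma eigenvector (A : Matrix (Fin 2) (Fin 2) ℂ) (l : ℂ)
    (h : (A - l • (1 : Matrix (Fin 2) (Fin 2) ℂ)).det = 0) : ∃ v, v ≠ 0 ∧ A *ᵥ v = l • v := by
  obtain ⟨v, hv0, hv⟩ := Matrix.exists_mulVec_eq_zero_iff.mpr h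
  refine ⟨v, hv0, ?_⟩
  rwa [Matrix.sub_mulVec, Matrix.smul_mulVec, Matrix.one_mulVec, sub_eq_zero] at hv

lemma conj_root (l : ℂ) (n : ℕ) (hn : n ≠ 0) (h : l ^ n = 1) : l * (starRingEnd ℂ) l = 1 := by
  have h1 : ‖l‖ = 1 := Complex.norm_eq_one_of_pow_eq_one h hn
  rw [Complex.mul_conj, Complex.normSq_eq_norm_sq, h1]
  norm_num

/-- the trace of the inverse of a matrix of finite order is the complex conjugate -/
lemma trace_conj (A B : Matrix (Fin 2) (Fin 2) ℂ) (n : ℕ) (hn : n ≠ 0) (hA : A ^ n = 1)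
    (h : B * A = 1) : B.trace = (starRingEnd ℂ) A.trace := by
  obtain ⟨l, m, h1, h2, h3, h4⟩ := exists_eigen A
  obtain ⟨v, hv0, hv⟩ := eigenvector A l h3
  obtain ⟨w, hw0, hw⟩ := eigenvector A m h4
  have hl := conj_root l n hn (eigen_pow A n hA l v hv0 hv)
  have hm := conj_root m n hn (eigen_pow A n hA m w hw0 hw)
  have h5 : B.det * A.det = 1 := by rw [← Matrix.det_mul, h, Matrix.det_one]
  rw [h2] at h5
  rw [trace_inv A B h, h1, map_add]
  have h6 : B.det * l * m = 1 := by rw [mul_assoc]; exact h5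
  linear_combination (starRingEnd ℂ) l * h6 - (B.det * m) * hl + (starRingEnd ℂ) m * h6
    - (B.det * l) * hm

section Average

variable {H : Type} [Group H] [Fintype H] (ρ : H →* Matrix (Fin 2) (Fin 2) ℂ)

/-- the average of a matrix over the group -/
noncomputable def avg (X : Matrix (Fin 2) (Fin 2) ℂ) : Matrix (Fin 2) (Fin 2) ℂ :=
  ∑ h, ρ h * X * ρ h⁻¹

lemma avg_comm (X : Matrix (Fin 2) (Fin 2) ℂ) (g : H) : ρ g * avg ρ X = avg ρ X * ρ g := by
  unfold avg
  rw [Finset.mul_sum, Finset.sum_mul]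
  refine Fintype.sum_equiv (Equiv.mulLeft g) _ _ fun h => ?_
  simp only [Equiv.coe_mulLeft]
  rw [_root_.mul_inv_rev, map_mul, map_mul, Matrix.mul_assoc _ _ (ρ g), Matrix.mul_assoc (ρ h⁻¹),
    ← map_mul ρ g⁻¹ g, inv_mul_cancel, map_one, Matrix.mul_one]
  simp only [Matrix.mul_assoc]

lemma avg_trace (X : Matrix (Fin 2) (Fin 2) ℂ) :
    (avg ρ X).trace = (Fintype.card H : ℂ) * X.trace := by
  unfold avg
  rw [Matrix.trace_sum]
  have h1 : ∀ h : H, (ρ h * X * ρ h⁻¹).trace = X.trace := by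
    intro h
    rw [Matrix.trace_mul_comm, ← Matrix.mul_assoc, ← map_mul, inv_mul_cancel, map_one,
      Matrix.one_mul]
  rw [Finset.sum_congr rfl fun h _ => h1 h, Finset.sum_const, Finset.card_univ, nsmul_eq_mul]

/-- if all averages are scalar, `∑ tr ρ(h) tr ρ(h⁻¹) = |H|` -/
lemma sum_traces (hs : ∀ X, ∃ c : ℂ, avg ρ X = c • (1 : Matrix (Fin 2) (Fin 2) ℂ)) :
    ∑ h, (ρ h).trace * (ρ h⁻¹).trace = (Fintype.card H : ℂ) := by
  have h1 : ∀ i j : Fin 2, ∑ h, (ρ h) i i * (ρ h⁻¹) j j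
      = if i = j then (Fintype.card H : ℂ) / 2 else 0 := by
    intro i j
    obtain ⟨c, hc⟩ := hs (Matrix.single i j 1)
    have h2 := avg_trace ρ (Matrix.single i j 1)
    rw [hc, Matrix.trace_smul, Matrix.trace_one, Fintype.card_fin, smul_eq_mul] at h2
    have h3 : (avg ρ (Matrix.single i j 1)) i j = ∑ h, (ρ h) i i * (ρ h⁻¹) j j := by
      unfold avg
      rw [Matrix.sum_apply]
      refine Finset.sum_congr rfl fun h _ => ?_
      fin_cases i <;> fin_cases j <;>
        simp [Matrix.mul_apply, Fin.sum_univ_two, Matrix.single]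
    rw [← h3, hc]
    by_cases hij : i = j
    · subst hij
      rw [if_pos rfl, Matrix.smul_apply, Matrix.one_apply_eq, smul_eq_mul, mul_one]
      rw [Matrix.trace_single_eq_same] at h2
      push_cast at h2
      linear_combination h2 / 2
    · rw [if_neg hij, Matrix.smul_apply, Matrix.one_apply_ne hij, smul_zero]
  have h4 : ∀ h : H, (ρ h).trace * (ρ h⁻¹).trace
      = (ρ h) 0 0 * (ρ h⁻¹) 0 0 + (ρ h) 0 0 * (ρ h⁻¹) 1 1 + ((ρ h) 1 1 * (ρ h⁻¹) 0 0
        + (ρ h) 1 1 * (ρ h⁻¹) 1 1) := by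
    intro h
    rw [Matrix.trace_fin_two, Matrix.trace_fin_two]
    ring
  rw [Finset.sum_congr rfl fun h _ => h4 h, Finset.sum_add_distrib, Finset.sum_add_distrib,
    Finset.sum_add_distrib, h1, h1, h1, h1]
  simp

/-- some average is not scalar if the order is odd -/
lemma exists_avg (hodd : Odd (Fintype.card H)) :
    ∃ X, ¬ ∃ c : ℂ, avg ρ X = c • (1 : Matrix (Fin 2) (Fin 2) ℂ) := by
  by_contra hcon
  push Not at hcon
  have h1 := sum_traces ρ hcon
  set N : ℂ := (Fintype.card H : ℂ) with hN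
  have hn : Fintype.card H ≠ 0 := Fintype.card_ne_zero
  have hinv : ∀ h : H, ρ h⁻¹ * ρ h = 1 := fun h => by
    rw [← map_mul, inv_mul_cancel, map_one]
  have hconj : ∀ h : H, (ρ h⁻¹).trace = (starRingEnd ℂ) (ρ h).trace := fun h =>
    trace_conj (ρ h) (ρ h⁻¹) _ hn (by rw [← map_pow, pow_card_eq_one, map_one]) (hinv h)
  -- `a h = |tr ρ(h)|²`
  have ha : ∀ h : H, (ρ h).trace * (ρ h⁻¹).trace = ((Complex.normSq (ρ h).trace : ℝ) : ℂ) := by
    intro h
    rw [hconj, Complex.mul_conj]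
  -- `a (h²) = (a h - 2)²`
  have hsq : ∀ h : H, (ρ (h ^ 2)).trace * (ρ (h ^ 2)⁻¹).trace
      = ((ρ h).trace * (ρ h⁻¹).trace - 2) ^ 2 := by
    intro h
    have e1 : ρ (h ^ 2) = ρ h * ρ h := by rw [sq, map_mul]
    have e2 : ρ (h ^ 2)⁻¹ = ρ h⁻¹ * ρ h⁻¹ := by rw [sq, _root_.mul_inv_rev, map_mul]
    have e3 := trace_inv (ρ h) (ρ h⁻¹) (hinv h)
    have e4 : (ρ h⁻¹).det * (ρ h).det = 1 := by
      rw [← Matrix.det_mul, hinv h, Matrix.det_one]
    rw [e1, e2, trace_mul_self, trace_mul_self, e3]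
    linear_combination (4 - 2 * (ρ h⁻¹).det * (ρ h).trace ^ 2) * e4
  have hbij : ∑ h : H, (ρ (h ^ 2)).trace * (ρ (h ^ 2)⁻¹).trace
      = ∑ h : H, (ρ h).trace * (ρ h⁻¹).trace := by
    have hco : (Nat.card H).Coprime 2 := by
      rw [Nat.card_eq_fintype_card]
      exact (Nat.coprime_two_right).mpr hodd
    exact Fintype.sum_equiv (powCoprime hco) _ _ fun h => rfl
  rw [Finset.sum_congr rfl fun h _ => hsq h, h1] at hbij
  have h2 : ∑ h : H, ((ρ h).trace * (ρ h⁻¹).trace - 1) ^ 2 = 0 := by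
    have e1 : ∀ h : H, ((ρ h).trace * (ρ h⁻¹).trace - 1) ^ 2
        = ((ρ h).trace * (ρ h⁻¹).trace - 2) ^ 2 + 2 * ((ρ h).trace * (ρ h⁻¹).trace) - 3 := by
      intro h; ring
    rw [Finset.sum_congr rfl fun h _ => e1 h, Finset.sum_sub_distrib, Finset.sum_add_distrib,
      hbij, ← Finset.mul_sum, h1, Finset.sum_const, Finset.card_univ, nsmul_eq_mul]
    rw [← hN]
    ring
  have h3 : ∑ h : H, (Complex.normSq (ρ h).trace - 1) ^ 2 = 0 := by
    have e1 : ((∑ h : H, (Complex.normSq (ρ h).trace - 1) ^ 2 : ℝ) : ℂ) = 0 := by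
      rw [← h2]
      push_cast
      refine Finset.sum_congr rfl fun h _ => ?_
      rw [ha]
    exact_mod_cast e1
  have h4 := (Finset.sum_eq_zero_iff_of_nonneg fun h _ => sq_nonneg _).mp h3 1 (Finset.mem_univ _)
  rw [map_one, Matrix.trace_one, Fintype.card_fin] at h4
  norm_num [Complex.normSq] at h4

/-- a finite group of odd order of `2 × 2` matrices has a common eigenvector -/
theorem exists_common (hodd : Odd (Fintype.card H)) :
    ∃ v : Fin 2 → ℂ, v ≠ 0 ∧ ∀ h : H, ∃ c : ℂ, ρ h *ᵥ v = c • v := by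
  obtain ⟨X, hX⟩ := exists_avg ρ hodd
  set Y := avg ρ X with hY
  obtain ⟨l, m, -, -, h3, -⟩ := exists_eigen Y
  obtain ⟨v, hv0, hv⟩ := eigenvector Y l h3
  refine ⟨v, hv0, fun h => ?_⟩
  have hcomm : ρ h * Y = Y * ρ h := avg_comm ρ X h
  set u := ρ h *ᵥ v with hu
  have hYu : Y *ᵥ u = l • u := by
    rw [hu, Matrix.mulVec_mulVec, ← hcomm, ← Matrix.mulVec_mulVec, hv, Matrix.mulVec_smul]
  obtain ⟨a, b, c, d, hY'⟩ := mat_two Y
  rw [hY'] at hv hYu hX
  have v0 := congrFun hv 0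
  have v1 := congrFun hv 1
  have u0 := congrFun hYu 0
  have u1 := congrFun hYu 1
  simp [Matrix.mulVec, dotProduct, Fin.sum_univ_two] at v0 v1 u0 u1
  have hDet : v 0 * u 1 - v 1 * u 0 = 0 := by
    by_contra hne
    have ha : a = l := by
      have : (a - l) * (v 0 * u 1 - v 1 * u 0) = 0 := by
        linear_combination u 1 * v0 - v 1 * u0
      rcases mul_eq_zero.mp this with h | h
      · exact sub_eq_zero.mp h
      · exact absurd h hne
    have hb : b = 0 := by
      have : b * (v 0 * u 1 - v 1 * u 0) = 0 := by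
        linear_combination v 0 * u0 - u 0 * v0
      rcases mul_eq_zero.mp this with h | h
      · exact h
      · exact absurd h hne
    have hd : d = l := by
      have : (d - l) * (v 0 * u 1 - v 1 * u 0) = 0 := by
        linear_combination v 0 * u1 - u 0 * v1
      rcases mul_eq_zero.mp this with h | h
      · exact sub_eq_zero.mp h
      · exact absurd h hne
    have hc : c = 0 := by
      have : c * (v 0 * u 1 - v 1 * u 0) = 0 := by
        linear_combination u 1 * v1 - v 1 * u1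
      rcases mul_eq_zero.mp this with h | h
      · exact h
      · exact absurd h hne
    apply hX
    refine ⟨l, ?_⟩
    rw [ha, hb, hc, hd]
    ext i j; fin_cases i <;> fin_cases j <;> simp
  by_cases h0 : v 0 = 0
  · have h1 : v 1 ≠ 0 := by
      intro h1
      apply hv0
      ext i; fin_cases i
      · exact h0
      · exact h1
    refine ⟨u 1 / v 1, ?_⟩
    ext i; fin_cases i
    · simp only [Fin.zero_eta, Pi.smul_apply, smul_eq_mul, h0, mul_zero]
      rw [h0, zero_mul, zero_sub, neg_eq_zero] at hDet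
      rcases mul_eq_zero.mp hDet with h | h
      · exact absurd h h1
      · exact h
    · simp only [Fin.mk_one, Pi.smul_apply, smul_eq_mul]
      rw [div_mul_cancel₀ _ h1]
  · refine ⟨u 0 / v 0, ?_⟩
    ext i; fin_cases i
    · simp only [Fin.zero_eta, Pi.smul_apply, smul_eq_mul]
      rw [div_mul_cancel₀ _ h0]
    · simp only [Fin.mk_one, Pi.smul_apply, smul_eq_mul]
      rw [div_mul_eq_mul_div, eq_div_iff h0]
      linear_combination hDet

end Average

/-- a finite group of odd order of `2 × 2` matrices whose elements other than `1` do not have the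
eigenvalue `1` is cyclic -/
theorem cyclic_of_free {H : Type} [Group H] [Finite H] (ρ : H →* Matrix (Fin 2) (Fin 2) ℂ)
    (hodd : Odd (Nat.card H)) (hfree : ∀ h : H, h ≠ 1 → (1 - ρ h).det ≠ 0) : IsCyclic H := by
  have : Fintype H := Fintype.ofFinite H
  rw [Nat.card_eq_fintype_card] at hodd
  obtain ⟨v, hv0, hex⟩ := exists_common ρ hodd
  choose f hf using hex
  have huniq : ∀ a b : ℂ, a • v = b • v → a = b := by
    intro a b hab
    have h1 : (a - b) • v = 0 := by rw [sub_smul, hab, sub_self]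
    rcases smul_eq_zero.mp h1 with h | h
    · exact sub_eq_zero.mp h
    · exact absurd h hv0
  have hf1 : f 1 = 1 := by
    apply huniq
    rw [← hf 1, one_smul, map_one, Matrix.one_mulVec]
  have hfm : ∀ a b : H, f (a * b) = f a * f b := by
    intro a b
    apply huniq
    rw [← hf (a * b), map_mul, ← Matrix.mulVec_mulVec, hf b, Matrix.mulVec_smul, hf a, smul_smul,
      mul_comm]
  let F : H →* ℂ := { toFun := f, map_one' := hf1, map_mul' := hfm }
  refine isCyclic_of_injective_ringHom F ?_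
  intro a b hab
  have h1 : f (a⁻¹ * b) = 1 := by
    have hab' : f a = f b := hab
    rw [hfm, ← hab', ← hfm, inv_mul_cancel, hf1]
  have h2 := hf (a⁻¹ * b)
  rw [h1, one_smul] at h2
  by_contra hne
  have h3 : a⁻¹ * b ≠ 1 := fun h => hne (inv_mul_eq_one.mp h)
  apply hfree _ h3
  rw [← Matrix.exists_mulVec_eq_zero_iff]
  refine ⟨v, hv0, ?_⟩
  rw [Matrix.sub_mulVec, Matrix.one_mulVec, h2, sub_self]

end Pool.Agent.H18.PG
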