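import Pool.Agent.H18.PG.Sixty

/-!
# All groups of the list satisfy the conditions
-/

namespace Pool.Agent.H18.PG

open MulAction Pool.Agent.H93.PF

/-- The data of the elements of a cyclic group of the list. -/
lemma data_dvd {n m : ℕ} (hn : n = 1 ∨ n = 3 ∨ n = 5 ∨ n = 7 ∨ n = 11) (hm : 1 < m)
    (hmn : m ∣ n) : Nonempty (PlaneAction m) := by
  have h1 : m = 3 ∨ m = 5 ∨ m = 7 ∨ m = 11 := by
    have h2 : m ≤ n := Nat.le_of_dvd (by omega) hmn
    rcases hn with rfl | rfl | rfl | rfl | rfl <;> interval_cases m <;> omega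
  rcases h1 with rfl | rfl | rfl | rfl
  · exact plane_three
  · exact plane_of_prime (Or.inl rfl)
  · exact plane_of_prime (Or.inr (Or.inl rfl))
  · exact plane_of_prime (Or.inr (Or.inr rfl))

/-- The cyclic groups. -/
theorem exists_cyclic {n : ℕ} (hn : n = 1 ∨ n = 3 ∨ n = 5 ∨ n = 7 ∨ n = 11) :
    ∃ (G M : Type) (_ : Group G) (_ : Finite G) (_ : MulAction G M),
      Nat.card G = n ∧ IsCyclic G ∧ Nonempty (SymmetryGroup G M) := by
  have hne : NeZero n := ⟨by omega⟩
  have hc : Nat.card (Multiplicative (ZMod n)) = n := by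
    rw [Nat.card_congr Multiplicative.toAdd, Nat.card_zmod]
  have hcyc : IsCyclic (Multiplicative (ZMod n)) := inferInstance
  obtain ⟨act, h⟩ := of_cyclic (G := Multiplicative (ZMod n)) hcyc
    (by rw [hc]; rcases hn with rfl | rfl | rfl | rfl | rfl <;> decide)
    (fun m hm hmn => data_dvd hn hm (by rwa [hc] at hmn))
  exact ⟨Multiplicative (ZMod n), Fin 3, inferInstance, inferInstance, act, hc, hcyc, h⟩

/-- The subgroup of order nine. -/
def K9 : Subgroup G63 where
  carrier := {x | x.b = 0}
  mul_mem' := by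
    intro x y hx hy
    have hx' : x.b = 0 := hx
    have hy' : y.b = 0 := hy
    show two x.k * y.b + x.b = 0
    rw [hx', hy', mul_zero, add_zero]
  one_mem' := rfl
  inv_mem' := by
    intro x hx
    have hx' : x.b = 0 := hx
    show -(two (-x.k) * x.b) = 0
    rw [hx', mul_zero, neg_zero]

/-- The subgroup of order twenty-one which is not cyclic. -/
def K21 : Subgroup G63 where
  carrier := {x | x.c = 0}
  mul_mem' := by
    intro x y hx hy
    have hx' : x.c = 0 := hx
    have hy' : y.c = 0 := hy
    show x.c + y.c = 0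
    rw [hx', hy', add_zero]
  one_mem' := rfl
  inv_mem' := by
    intro x hx
    have hx' : x.c = 0 := hx
    show -x.c = 0
    rw [hx', neg_zero]

lemma card_K9 : Nat.card K9 = 9 := by
  have e : K9 ≃ ZMod 3 × ZMod 3 :=
    { toFun := fun x => ((x : G63).c, (x : G63).k)
      invFun := fun x => ⟨⟨x.1, x.2, 0⟩, rfl⟩
      left_inv := fun x => by
        apply Subtype.ext
        have hx : (x : G63).b = 0 := x.2
        ext
        · rfl
        · rfl
        · exact hx.symm
      right_inv := fun x => rfl }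
  rw [Nat.card_congr e, Nat.card_prod, Nat.card_zmod]

lemma card_K21 : Nat.card K21 = 21 := by
  have e : K21 ≃ ZMod 3 × ZMod 7 :=
    { toFun := fun x => ((x : G63).k, (x : G63).b)
      invFun := fun x => ⟨⟨0, x.1, x.2⟩, rfl⟩
      left_inv := fun x => by
        apply Subtype.ext
        have hx : (x : G63).c = 0 := x.2
        ext
        · exact hx.symm
        · rfl
        · rfl
      right_inv := fun x => rfl }
  rw [Nat.card_congr e, Nat.card_prod, Nat.card_zmod, Nat.card_zmod]

lemma not_cyclic {K : Subgroup G63} (h : ∀ g ∈ K, orderOf g < Nat.card K) : ¬ IsCyclic K := by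
  intro hc
  obtain ⟨g, hg⟩ := hc.exists_generator
  have h1 := orderOf_eq_card_of_forall_mem_zpowers hg
  have h2 := h g g.2
  rw [Subgroup.orderOf_coe] at h2
  omega

section Decide

set_option maxRecDepth 1000000

lemma pow_K9 : ∀ c k : ZMod 3, (⟨c, k, 0⟩ : G63) ^ 3 = 1 := by decide

lemma pow_K21 : ∀ k : ZMod 3, ∀ b : ZMod 7, (⟨0, k, b⟩ : G63) ^ 3 = 1 ∨
    (⟨0, k, b⟩ : G63) ^ 7 = 1 := by decide

end Decide

lemma order_K9 {g : G63} (hg : g ∈ K9) : orderOf g ≤ 3 := by
  have h1 : g = ⟨g.c, g.k, 0⟩ := by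
    ext
    · rfl
    · rfl
    · exact hg
  exact orderOf_le_of_pow_eq_one (by norm_num) (by rw [h1]; exact pow_K9 g.c g.k)

lemma order_K21 {g : G63} (hg : g ∈ K21) : orderOf g ≤ 7 := by
  have h1 : g = ⟨0, g.k, g.b⟩ := by
    ext
    · exact hg
    · rfl
    · rfl
  rcases pow_K21 g.k g.b with h | h
  · have := orderOf_le_of_pow_eq_one (x := g) (n := 3) (by norm_num) (by rw [h1]; exact h)
    omega
  · exact orderOf_le_of_pow_eq_one (by norm_num) (by rw [h1]; exact h)

/-- The groups which are not cyclic. -/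
theorem exists_noncyclic {n : ℕ} (hn : n = 9 ∨ n = 21) :
    ∃ (G M : Type) (_ : Group G) (_ : Finite G) (_ : MulAction G M),
      Nat.card G = n ∧ ¬ IsCyclic G ∧ Nonempty (SymmetryGroup G M) := by
  rcases hn with rfl | rfl
  · refine ⟨K9, M63, inferInstance, inferInstance, inferInstance, card_K9, not_cyclic ?_,
      data63 _ ?_⟩
    · intro g hg
      have := order_K9 hg
      rw [card_K9]
      omega
    · intro g hg
      have := order_K9 hg
      omega
  · refine ⟨K21, M63, inferInstance, inferInstance, inferInstance, card_K21, not_cyclic ?_,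
      data63 _ ?_⟩
    · intro g hg
      have := order_K21 hg
      rw [card_K21]
      omega
    · intro g hg
      have := order_K21 hg
      omega

end Pool.Agent.H18.PG
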