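import Mathlib

/-!
# Groups of order `45` and `315` have an element of order `15`
-/

namespace Pool.Agent.H18.PG

variable {G : Type} [Group G]

/-- iterated conjugation -/
lemma conj_iter {g h : G} {r : ℕ} (hr : h * g * h⁻¹ = g ^ r) (k : ℕ) :
    h ^ k * g * (h ^ k)⁻¹ = g ^ (r ^ k) := by
  induction k with
  | zero => simp
  | succ k ih =>
    have h1 : h ^ (k + 1) * g * (h ^ (k + 1))⁻¹ = h * (h ^ k * g * (h ^ k)⁻¹) * h⁻¹ := by
      rw [pow_succ', mul_inv_rev]
      group
    rw [h1, ih, ← conj_pow, hr, ← pow_mul, pow_succ']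

/-- a group of order `45` or `315` has an element of order `15` -/
theorem exists_fifteen [Finite G] (hN : Nat.card G = 45 ∨ Nat.card G = 315) :
    ∃ g : G, orderOf g = 15 := by
  have : Fact (Nat.Prime 5) := ⟨Nat.prime_five⟩
  have : Fact (Nat.Prime 3) := ⟨Nat.prime_three⟩
  obtain ⟨P⟩ : Nonempty (Sylow 5 G) := inferInstance
  have hidx : Nat.card P * (P : Subgroup G).index = Nat.card G := Subgroup.card_mul_index _
  have hnd : ¬ 5 ∣ (P : Subgroup G).index := P.not_dvd_index
  obtain ⟨n, hn⟩ := IsPGroup.iff_card.mp P.isPGroup'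
  have hP : Nat.card P = 5 := by
    rcases n with _ | _ | n
    · exfalso
      rw [pow_zero] at hn
      rw [hn, one_mul] at hidx
      rcases hN with h | h <;> rw [hidx, h] at hnd <;> norm_num at hnd
    · simpa using hn
    · exfalso
      have h1 : 25 ∣ Nat.card G := by
        rw [← hidx, hn, show n + 1 + 1 = 2 + n by ring, pow_add, mul_assoc]
        exact Dvd.intro _ rfl
      rcases hN with h | h <;> rw [h] at h1 <;> norm_num at h1
  have hs1 := card_sylow_modEq_one 5 G
  have hs2 := P.card_dvd_index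
  have hs3 := P.card_eq_index_normalizer
  have hs4 := Subgroup.card_mul_index (Subgroup.normalizer (P : Set G))
  rw [← hs3] at hs4
  rw [hP] at hidx
  set s := Nat.card (Sylow 5 G) with hs
  unfold Nat.ModEq at hs1
  have h3 : 3 ∣ Nat.card (Subgroup.normalizer (P : Set G)) := by
    rcases hN with h | h
    · have h9 : (P : Subgroup G).index = 9 := by omega
      rw [h9] at hs2
      have h1 : s ∈ Nat.divisors 9 := Nat.mem_divisors.mpr ⟨hs2, by norm_num⟩
      have h2 : ∀ t ∈ Nat.divisors 9, t % 5 = 1 % 5 → t = 1 := by decide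
      have h4 := h2 s h1 hs1
      rw [h4, mul_one] at hs4
      rw [hs4, h]
      norm_num
    · have h9 : (P : Subgroup G).index = 63 := by omega
      rw [h9] at hs2
      have h1 : s ∈ Nat.divisors 63 := Nat.mem_divisors.mpr ⟨hs2, by norm_num⟩
      have h2 : ∀ t ∈ Nat.divisors 63, t % 5 = 1 % 5 → t = 1 ∨ t = 21 := by decide
      rw [h] at hs4
      rcases h2 s h1 hs1 with h4 | h4
      · rw [h4, mul_one] at hs4
        rw [hs4]
        norm_num
      · rw [h4] at hs4
        have : Nat.card (Subgroup.normalizer (P : Set G)) = 15 := by omega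
        rw [this]
        norm_num
  obtain ⟨h, hh⟩ := exists_prime_orderOf_dvd_card' 3 h3
  obtain ⟨g, hg⟩ := exists_prime_orderOf_dvd_card' (G := P) 5 (by rw [hP])
  have hg' : orderOf (g : G) = 5 := by rw [Subgroup.orderOf_coe]; exact hg
  have hh' : orderOf (h : G) = 3 := by rw [Subgroup.orderOf_coe]; exact hh
  have hz : Subgroup.zpowers (g : G) = (P : Subgroup G) := by
    apply Subgroup.eq_of_le_of_card_ge
    · rw [Subgroup.zpowers_le]
      exact g.2
    · rw [Nat.card_zpowers, hg']
      exact hP.le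
  have hconj : (h : G) * g * (h : G)⁻¹ ∈ Subgroup.zpowers (g : G) := by
    rw [hz]
    exact (Subgroup.mem_normalizer_iff.mp h.2 (g : G)).mp g.2
  rw [← mem_powers_iff_mem_zpowers, Submonoid.mem_powers_iff] at hconj
  obtain ⟨r, hr⟩ := hconj
  have h5 := conj_iter hr.symm 3
  have h6 : (h : G) ^ 3 = 1 := by rw [← hh', pow_orderOf_eq_one]
  rw [h6, one_mul, inv_one, mul_one] at h5
  have h7 : r ^ 3 % 5 = 1 := by
    have h8 : (g : G) ^ (r ^ 3) = (g : G) ^ 1 := by rw [← h5, pow_one]
    rw [pow_inj_mod, hg'] at h8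
    exact h8
  have h8 : r % 5 = 1 := by
    have h9 : r % 5 < 5 := Nat.mod_lt _ (by norm_num)
    rw [Nat.pow_mod] at h7
    generalize r % 5 = t at h7 h9 ⊢
    interval_cases t <;> omega
  have h9 : (h : G) * g * (h : G)⁻¹ = g := by
    rw [← hr, ← pow_mod_orderOf, hg', h8, pow_one]
  have hcomm : Commute (h : G) (g : G) := by
    unfold Commute SemiconjBy
    exact mul_inv_eq_iff_eq_mul.mp h9
  refine ⟨(h : G) * g, ?_⟩
  rw [hcomm.orderOf_mul_eq_mul_orderOf_of_coprime (by rw [hh', hg']; norm_num), hh', hg']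

end Pool.Agent.H18.PG
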