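import Pool.Agent.H18.PG.Data

/-!
# The data of a group from an action and the data of its elements
-/

namespace Pool.Agent.H18.PG

open MulAction Pool.Agent.H93.PF

/-- A finite group `G` which acts faithfully by symplectomorphisms on a closed simply connected
symplectic four-manifold with `b₂ = 1`, not `ℂP²`, with the set of points `M`. For `g ≠ 1` the fixed
points are isolated (Smith theory: otherwise there is a sphere of fixed points, which the adjunction
formula excludes) and their number is the Lefschetz number three. A `G`-invariant almost complex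
structure gives complex representations of the isotropy groups on the tangent spaces. -/
structure SymmetryGroup (G M : Type) [Group G] [MulAction G M] where
  /-- The representation of the isotropy group of a point on the tangent space. -/
  tangent : ∀ x : M, stabilizer G x →* Module.End ℂ (Fin 2 → ℂ)
  /-- The fixed points are isolated. -/
  isolated : ∀ (x : M) (g : stabilizer G x), g ≠ 1 → ∀ v, tangent x g v = v → v = 0
  /-- The number of the fixed points. -/
  fixed : ∀ g : G, g ≠ 1 → (fixedBy M g).ncard = 3
  /-- The numerical data for the cyclic subgroups. -/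
  cyclic : ∀ g : G, g ≠ 1 → Nonempty (PlaneAction (orderOf g))

/-- An injective character of a finite cyclic group. -/
lemma exists_char (S : Type) [Group S] [Finite S] (hS : IsCyclic S) :
    ∃ χ : S →* ℂ, Function.Injective χ := by
  have : NeZero (Nat.card S) := ⟨Nat.card_pos.ne'⟩
  refine ⟨(AddChar.toMonoidHom (ZMod.stdAddChar (N := Nat.card S))).comp
    (zmodCyclicMulEquiv hS).symm.toMonoidHom, ?_⟩
  intro a b hab
  have h1 : ZMod.stdAddChar (N := Nat.card S)
      (Multiplicative.toAdd ((zmodCyclicMulEquiv hS).symm a)) =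
      ZMod.stdAddChar (N := Nat.card S)
        (Multiplicative.toAdd ((zmodCyclicMulEquiv hS).symm b)) := hab
  exact (zmodCyclicMulEquiv hS).symm.injective (Multiplicative.toAdd.injective
    (ZMod.injective_stdAddChar h1))

/-- The representation `χ ⊕ χ²`. -/
noncomputable def dbl {S : Type} [Group S] (χ : S →* ℂ) : S →* Module.End ℂ (Fin 2 → ℂ) where
  toFun g := Matrix.toLin' (Matrix.diagonal ![χ g, χ g ^ 2])
  map_one' := by
    refine LinearMap.ext fun v => ?_
    funext i
    fin_cases i <;> simp [Matrix.mulVec_diagonal, Matrix.toLin'_apply]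
  map_mul' g h := by
    refine LinearMap.ext fun v => ?_
    funext i
    fin_cases i
    · simp [Matrix.mulVec_diagonal, Matrix.toLin'_apply, mul_assoc]
    · simp [Matrix.mulVec_diagonal, Matrix.toLin'_apply]
      ring

lemma dbl_apply {S : Type} [Group S] (χ : S →* ℂ) (g : S) (v : Fin 2 → ℂ) :
    dbl χ g v = ![χ g * v 0, χ g ^ 2 * v 1] := by
  funext i
  fin_cases i <;> simp [dbl, Matrix.mulVec_diagonal, Matrix.toLin'_apply]

lemma dbl_free {S : Type} [Group S] [Finite S] (hodd : Odd (Nat.card S)) {χ : S →* ℂ}
    (hχ : Function.Injective χ) (g : S) (hg : g ≠ 1) (v : Fin 2 → ℂ) (hv : dbl χ g v = v) :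
    v = 0 := by
  have h1 : χ g ≠ 1 := fun h => hg (hχ (by rw [h, map_one]))
  have h2 : χ g ^ 2 ≠ 1 := by
    intro h
    rw [← map_pow] at h
    have h3 : g ^ 2 = 1 := hχ (by rw [h, map_one])
    have h4 : orderOf g ∣ 2 := orderOf_dvd_of_pow_eq_one h3
    have h5 : orderOf g ∣ Nat.card S := orderOf_dvd_natCard g
    have h6 : orderOf g ∣ Nat.gcd 2 (Nat.card S) := Nat.dvd_gcd h4 h5
    rw [(Nat.coprime_two_left).2 hodd] at h6
    exact hg (orderOf_eq_one_iff.1 (Nat.dvd_one.1 h6))
  rw [dbl_apply] at hv
  have e0 : χ g * v 0 = v 0 := congrFun hv 0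
  have e1 : χ g ^ 2 * v 1 = v 1 := congrFun hv 1
  funext i
  fin_cases i
  · have : (χ g - 1) * v 0 = 0 := by linear_combination e0
    exact (mul_eq_zero.1 this).resolve_left (sub_ne_zero.2 h1)
  · have : (χ g ^ 2 - 1) * v 1 = 0 := by linear_combination e1
    exact (mul_eq_zero.1 this).resolve_left (sub_ne_zero.2 h2)

/-- The data of a group from an action and the data of its elements. -/
theorem of_action {G M : Type} [Group G] [Finite G] [MulAction G M] (hodd : Odd (Nat.card G))
    (hfix : ∀ g : G, g ≠ 1 → (fixedBy M g).ncard = 3)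
    (hcyc : ∀ x : M, IsCyclic (stabilizer G x))
    (hdata : ∀ g : G, g ≠ 1 → Nonempty (PlaneAction (orderOf g))) :
    Nonempty (SymmetryGroup G M) := by
  choose χ hχ using fun x : M => exists_char (stabilizer G x) (hcyc x)
  exact ⟨{ tangent := fun x => dbl (χ x)
           isolated := fun x g hg v hv => dbl_free
            (hodd.of_dvd_nat (Subgroup.card_subgroup_dvd_card _)) (hχ x) g hg v hv
           fixed := hfix
           cyclic := hdata }⟩

/-- The data of a cyclic group. -/
theorem of_cyclic {G : Type} [Group G] [Finite G] (hG : IsCyclic G) (hodd : Odd (Nat.card G))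
    (hdata : ∀ m, 1 < m → m ∣ Nat.card G → Nonempty (PlaneAction m)) :
    ∃ _ : MulAction G (Fin 3), Nonempty (SymmetryGroup G (Fin 3)) := by
  let act : MulAction G (Fin 3) :=
    { smul := fun _ x => x, one_smul := fun _ => rfl, mul_smul := fun _ _ _ => rfl }
  refine ⟨act, of_action hodd ?_ ?_ ?_⟩
  · intro g _
    have : fixedBy (Fin 3) g = Set.univ := Set.eq_univ_of_forall fun x => rfl
    rw [this, Set.ncard_univ, Nat.card_eq_fintype_card, Fintype.card_fin]
  · intro x
    infer_instance
  · intro g hg
    refine hdata _ ?_ (orderOf_dvd_natCard g)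
    have h1 : orderOf g ≠ 1 := fun h => hg (orderOf_eq_one_iff.1 h)
    have h2 : 0 < orderOf g := orderOf_pos g
    omega

end Pool.Agent.H18.PG
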