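import Mathlib
import Pool.Agent.H18.PG.Count
import Pool.Agent.H18.PG.Fifteen

/-!
# Groups of odd order all of whose nontrivial elements have three fixed points
-/

namespace Pool.Agent.H18.PG

open MulAction

/-- the points with nontrivial stabilizer -/
def special (G M : Type) [Group G] [MulAction G M] : SubMulAction G M where
  carrier := {x | ∃ g : G, g ≠ 1 ∧ g • x = x}
  smul_mem' := by
    rintro h x ⟨g, hg, hx⟩
    refine ⟨h * g * h⁻¹, ?_, ?_⟩
    · intro h1
      apply hg
      rw [mul_inv_eq_one] at h1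
      exact mul_eq_left.mp h1
    · rw [mul_smul, inv_smul_smul, mul_smul, hx]

variable {G M : Type} [Group G] [Finite G] [MulAction G M]

section Class

variable (fix : G → Finset M) (hfix : ∀ g, g ≠ 1 → ∀ x, x ∈ fix g ↔ g • x = x)
  (hcard : ∀ g, g ≠ 1 → (fix g).card = 3)

include hfix in
lemma finite_special : Finite (special G M) := by
  have : Fintype G := Fintype.ofFinite G
  classical
  have h : ((special G M : SubMulAction G M) : Set M) ⊆
      ((Finset.univ.filter (fun g : G => g ≠ 1)).biUnion fix : Finset M) := by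
    rintro x ⟨g, hg, hx⟩
    rw [Finset.mem_coe, Finset.mem_biUnion]
    exact ⟨g, Finset.mem_filter.mpr ⟨Finset.mem_univ _, hg⟩, (hfix g hg x).mpr hx⟩
  exact Set.Finite.subset (Finset.finite_toSet _) h

omit [Finite G] in
include hfix hcard in
lemma card_fixed (g : G) (hg : g ≠ 1) : Nat.card (fixedBy (special G M) g) = 3 := by
  rw [← hcard g hg, ← Fintype.card_coe, ← Nat.card_eq_fintype_card]
  refine Nat.card_congr
    { toFun := fun y => ⟨(y.1 : M), (hfix g hg _).mpr (congrArg Subtype.val y.2)⟩
      invFun := fun x => ⟨⟨x.1, ⟨g, hg, (hfix g hg _).mp x.2⟩⟩,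
        Subtype.ext ((hfix g hg _).mp x.2)⟩
      left_inv := fun y => Subtype.ext (Subtype.ext rfl)
      right_inv := fun x => Subtype.ext rfl }

omit [Finite G] in
lemma stab_special (x : special G M) : stabilizer G x = stabilizer G (x : M) :=
  SubMulAction.stabilizer_of_subMul x

omit [Finite G] in
lemma stab_ge (hodd : Odd (Nat.card G)) (x : special G M) : 3 ≤ Nat.card (stabilizer G x) := by
  obtain ⟨g, hg, hx⟩ := x.2
  have h1 : Nat.card (stabilizer G x) ≠ 1 := by
    intro h
    rw [Subgroup.card_eq_one] at h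
    have h2 : g ∈ stabilizer G x := by
      rw [stab_special]
      exact hx
    rw [h, Subgroup.mem_bot] at h2
    exact hg h2
  have h2 : Odd (Nat.card (stabilizer G x)) :=
    hodd.of_dvd_nat (Subgroup.card_subgroup_dvd_card _)
  obtain ⟨k, hk⟩ := h2
  omega

omit [Finite G] in
/-- the points outside of `special G M` -/
lemma stab_bot {x : M} (hx : x ∉ special G M) : stabilizer G x = ⊥ := by
  rw [Subgroup.eq_bot_iff_forall]
  intro g hg
  by_contra h
  exact hx ⟨g, h, hg⟩

/-- the conclusion in the second case -/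
structure Second (C : Subgroup G) (F : Finset M) : Prop where
  normal : C.Normal
  cyclic : IsCyclic C
  index : C.index = 3
  ne_bot : C ≠ ⊥
  card : F.card = 3
  /-- `C` is the stabilizer of each point of `F`, and `F` is an orbit -/
  stab : ∀ x ∈ F, stabilizer G x = C ∧ orbit G x = F
  /-- the other points have a stabilizer of order one or three -/
  free : ∀ x, x ∉ F → Nat.card (stabilizer G x) = 1 ∨ Nat.card (stabilizer G x) = 3
  /-- the elements outside of `C` -/
  conj : ∀ g, g ∉ C → g ^ 3 = 1 ∧ ∃ r : ℕ, (∀ c ∈ C, g * c * g⁻¹ = c ^ r) ∧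
    Nat.card C ∣ r ^ 2 + r + 1

include hfix hcard in
/-- a finite group of odd order all of whose elements other than `1` have three fixed points, with
cyclic stabilizers -/
theorem classification (hodd : Odd (Nat.card G)) (hcyc : ∀ x : M, IsCyclic (stabilizer G x))
    (g₀ : G) (hg₀ : g₀ ≠ 1) :
    (IsCyclic G ∧ ∃ F : Finset M, F.card = 3 ∧ (∀ x ∈ F, stabilizer G x = ⊤) ∧
      ∀ x, x ∉ F → stabilizer G x = ⊥) ∨
    ∃ (C : Subgroup G) (F : Finset M), Second C F := by
  classical
  have hfin : Finite (special G M) := finite_special fix hfix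
  have hne : ∀ g : G, g ≠ 1 → ∃ x : M, g • x = x := by
    intro g hg
    have h1 : (fix g).Nonempty := by
      rw [← Finset.card_pos, hcard g hg]; norm_num
    obtain ⟨x, hx⟩ := h1
    exact ⟨x, (hfix g hg x).mp hx⟩
  rcases orbits_cases (X := special G M) hodd g₀ hg₀ (card_fixed fix hfix hcard)
    (stab_ge hodd) with ⟨h1, h2⟩ | ⟨x₀, h1, h2⟩ | ⟨h1, h2⟩
  · left
    have hF : ∀ x, x ∈ fix g₀ ↔ x ∈ special G M := by
      intro x
      refine ⟨fun hx => ⟨g₀, hg₀, (hfix g₀ hg₀ x).mp hx⟩, fun hx => ?_⟩
      rw [hfix g₀ hg₀]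
      have h3 : g₀ ∈ stabilizer G (x : M) := by
        rw [← stab_special ⟨x, hx⟩, h2 ⟨x, hx⟩]
        exact Subgroup.mem_top _
      exact h3
    have hst : ∀ x ∈ fix g₀, stabilizer G x = ⊤ := by
      intro x hx
      have h3 := h2 ⟨x, (hF x).mp hx⟩
      rwa [stab_special] at h3
    refine ⟨?_, fix g₀, hcard g₀ hg₀, hst, fun x hx => ?_⟩
    · obtain ⟨x, hx⟩ := hne g₀ hg₀
      have h3 := hcyc x
      rw [hst x ((hfix g₀ hg₀ x).mpr hx)] at h3
      exact isCyclic_of_surjective (Subgroup.topEquiv : (⊤ : Subgroup G) ≃* G)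
        Subgroup.topEquiv.surjective
    · exact stab_bot fun h => hx ((hF x).mpr h)
  · right
    set C : Subgroup G := stabilizer G (x₀ : M) with hC
    have hidx : C.index = 3 := by
      rw [hC, ← stab_special x₀, index_stabilizer, ← Nat.card_coe_set_eq, h1]
    have hN3 : 3 ∣ Nat.card G := by
      rw [← C.card_mul_index, hidx]
      exact Dvd.intro_left _ rfl
    have hnorm : C.Normal := by
      apply Subgroup.normal_of_index_eq_minFac_card
      rw [hidx]
      have h3 : (Nat.card G).minFac ≤ 3 := Nat.minFac_le_of_dvd (by norm_num) hN3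
      have h4 : Nat.card G ≠ 1 := by
        intro h
        rw [h] at hN3
        norm_num at hN3
      have h5 := Nat.minFac_prime h4
      have h6 : (Nat.card G).minFac ≠ 2 := by
        intro h
        have h7 := Nat.minFac_dvd (Nat.card G)
        rw [h] at h7
        obtain ⟨k, hk⟩ := hodd
        omega
      have := h5.two_le
      omega
    -- the orbit
    have horb : Set.Finite (orbit G (x₀ : M)) := Set.finite_range _
    set F : Finset M := horb.toFinset with hF
    have hFmem : ∀ x, x ∈ F ↔ x ∈ orbit G (x₀ : M) := fun x => by rw [hF, Set.Finite.mem_toFinset]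
    have hFcard : F.card = 3 := by
      rw [hF, ← Set.ncard_eq_toFinset_card _ horb, ← index_stabilizer, ← hC, hidx]
    have hFst : ∀ x ∈ F, stabilizer G x = C := by
      intro x hx
      obtain ⟨g, rfl⟩ := (hFmem x).mp hx
      simp only
      rw [stabilizer_smul_eq_stabilizer_map_conj, ← hC]
      exact Subgroup.normal_iff_map_conj_eq.mp hnorm g
    have hFfree : ∀ x, x ∉ F → Nat.card (stabilizer G x) = 1 ∨ Nat.card (stabilizer G x) = 3 := by
      intro x hx
      by_cases hs : x ∈ special G M
      · right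
        have h3 := h2 ⟨x, hs⟩ (by
          intro h4
          apply hx
          rw [hFmem]
          exact (SubMulAction.mem_orbit_subMul_iff).mp h4)
        rwa [stab_special] at h3
      · left
        rw [stab_bot hs]
        exact Subgroup.card_bot
    have hCc : IsCyclic C := hcyc _
    have hcube : ∀ g, g ∉ C → g ^ 3 = 1 := by
      intro g hg
      have hg1 : g ≠ 1 := fun h => hg (h ▸ C.one_mem)
      obtain ⟨w, hw⟩ := hne g hg1
      have hwF : w ∉ F := by
        intro h
        apply hg
        rw [← hFst w h]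
        exact hw
      have hw' : g ∈ stabilizer G w := hw
      have h3 : (⟨g, hw'⟩ : stabilizer G w) ^ Nat.card (stabilizer G w) = 1 := pow_card_eq_one'
      rcases hFfree w hwF with h4 | h4
      · rw [h4, pow_one] at h3
        exact absurd (congrArg Subtype.val h3) hg1
      · rw [h4] at h3
        exact congrArg Subtype.val h3
    refine ⟨C, F, hnorm, hCc, hidx, ?_, hFcard, fun x hx => ⟨hFst x hx, ?_⟩, hFfree,
      fun g hg => ⟨hcube g hg, ?_⟩⟩
    · obtain ⟨g, hg, hx⟩ := x₀.2
      intro h
      apply hg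
      rw [← Subgroup.mem_bot, ← h]
      exact hx
    · rw [hF, Set.Finite.coe_toFinset]
      exact orbit_eq_iff.mpr ((hFmem x).mp hx)
    · obtain ⟨c, hc⟩ := hCc.exists_generator
      have hcg : g * c * g⁻¹ ∈ C := hnorm.conj_mem c c.2 g
      have hcz : g * (c : G) * g⁻¹ ∈ Subgroup.zpowers (c : G) := by
        obtain ⟨k, hk⟩ := Subgroup.mem_zpowers_iff.mp (hc ⟨_, hcg⟩)
        rw [Subgroup.mem_zpowers_iff]
        exact ⟨k, congrArg Subtype.val hk⟩
      rw [← mem_powers_iff_mem_zpowers, Submonoid.mem_powers_iff] at hcz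
      obtain ⟨r, hr⟩ := hcz
      have hall : ∀ a ∈ C, g * a * g⁻¹ = a ^ r := by
        intro a ha
        obtain ⟨k, hk⟩ := Subgroup.mem_zpowers_iff.mp (hc ⟨a, ha⟩)
        have hk' : (c : G) ^ k = a := congrArg Subtype.val hk
        rw [← hk', ← conj_zpow, ← hr, ← zpow_natCast, ← zpow_natCast, ← zpow_mul, ← zpow_mul,
          mul_comm]
      refine ⟨r, hall, ?_⟩
      have hgc : g * (c : G) ∉ C := by
        intro h
        apply hg
        have := C.mul_mem h (C.inv_mem c.2)
        rwa [mul_inv_cancel_right] at this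
      have h3 := hcube g hg
      have h4 := hcube _ hgc
      have h5 : (g * (c : G)) ^ 3 = (g * c * g⁻¹) * (g ^ 2 * c * (g ^ 2)⁻¹)
          * (g ^ 3 * c * (g ^ 3)⁻¹) * g ^ 3 := by
        simp only [pow_succ, pow_zero, one_mul]
        group
      rw [h4, conj_iter hr.symm 2, h3, mul_one, one_mul, inv_one, mul_one, ← hr, ← pow_add,
        ← pow_succ] at h5
      have hord : Nat.card C = orderOf (c : G) := by
        rw [Subgroup.orderOf_coe, ← orderOf_eq_card_of_forall_mem_zpowers hc]
      rw [hord]
      apply orderOf_dvd_of_pow_eq_one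
      rw [h5]
      congr 1
      ring
  · exfalso
    obtain ⟨g, hg⟩ := exists_fifteen h1
    have hg1 : g ≠ 1 := by
      rintro rfl
      rw [orderOf_one] at hg
      norm_num at hg
    obtain ⟨w, hw⟩ := hne g hg1
    have h3 : orderOf g ∣ Nat.card (stabilizer G w) := by
      have hw' : g ∈ stabilizer G w := hw
      have h4 : orderOf (⟨g, hw'⟩ : stabilizer G w) ∣ Nat.card (stabilizer G w) :=
        orderOf_dvd_natCard _
      rwa [Subgroup.orderOf_mk] at h4
    have h4 := h2 ⟨w, ⟨g, hg1, hw⟩⟩
    rw [stab_special] at h4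
    rw [hg] at h3
    rcases h4 with h4 | h4 | h4 <;> (simp only at h4; rw [h4] at h3; norm_num at h3)

end Class

end Pool.Agent.H18.PG
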