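import Pool.Agent.H93.PF.Free
import Pool.Agent.H18.PG.Structure
import Pool.Agent.H93.PF.Low
import Pool.Agent.H18.PG.Rep

/-!
# The list of the finite groups
-/

namespace Pool.Agent.H18.PG

open MulAction Pool.Agent.H93.PF

variable {G M : Type} [Group G] [MulAction G M] [Finite G] (D : SymmetryGroup G M)

include D

/-- The orders of the elements. -/
lemma order_elem {g : G} (hg : g ≠ 1) : orderOf g = 3 ∨ orderOf g = 5 ∨ orderOf g = 7 ∨
    orderOf g = 11 := by
  have hpos : 0 < orderOf g := orderOf_pos g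
  have h1 : 1 < orderOf g := by
    have : orderOf g ≠ 1 := fun h => hg (orderOf_eq_one_iff.1 h)
    omega
  obtain ⟨A⟩ := D.cyclic g hg
  exact order_low h1 A

lemma odd_group : Odd (Nat.card G) := by
  rw [← Nat.not_even_iff_odd, even_iff_two_dvd]
  intro h
  have : Fact (Nat.Prime 2) := ⟨Nat.prime_two⟩
  obtain ⟨g, hg⟩ := exists_prime_orderOf_dvd_card' 2 h
  have := order_elem D (g := g) (by rintro rfl; rw [orderOf_one] at hg; omega)
  omega

lemma cyclic_stab (x : M) : IsCyclic (stabilizer G x) :=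
  isCyclic_of_free ((odd_group D).of_dvd_nat (Subgroup.card_subgroup_dvd_card _)) (D.tangent x)
    (D.isolated x)

/-- The list of the groups. -/
theorem list :
    (IsCyclic G ∧ Nat.card G ∈ ({1, 3, 5, 7, 11} : Set ℕ) ∧
      (Nat.card G ≠ 1 → ∃ F : Finset M, F.card = 3 ∧ (∀ x ∈ F, stabilizer G x = ⊤) ∧
        ∀ x, x ∉ F → stabilizer G x = ⊥)) ∨
    ∃ (C : Subgroup G) (F : Finset M), Second C F ∧ Nat.card C ∈ ({3, 7} : Set ℕ) := by
  classical
  by_cases htriv : Nat.card G = 1
  · left
    rw [Nat.card_eq_one_iff_unique] at htriv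
    obtain ⟨h1, h2⟩ := htriv
    refine ⟨isCyclic_of_subsingleton, ?_, fun h => ?_⟩
    · rw [Nat.card_of_subsingleton (1 : G)]
      simp
    · exact absurd (Nat.card_of_subsingleton (1 : G)) h
  obtain ⟨g₀, hg₀⟩ : ∃ g : G, g ≠ 1 := by
    by_contra h
    push Not at h
    apply htriv
    rw [Nat.card_eq_one_iff_unique]
    exact ⟨⟨fun a b => by rw [h a, h b]⟩, ⟨1⟩⟩
  have hfin : ∀ g : G, g ≠ 1 → (fixedBy M g).Finite := fun g hg =>
    Set.finite_of_ncard_ne_zero (by rw [D.fixed g hg]; norm_num)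
  let fix : G → Finset M := fun g => if h : g ≠ 1 then (hfin g h).toFinset else ∅
  have hfix : ∀ g, g ≠ 1 → ∀ x, x ∈ fix g ↔ g • x = x := by
    intro g hg x
    simp only [fix]
    rw [dif_pos hg, Set.Finite.mem_toFinset, mem_fixedBy]
  have hcard : ∀ g, g ≠ 1 → (fix g).card = 3 := by
    intro g hg
    simp only [fix]
    rw [dif_pos hg, ← Set.ncard_eq_toFinset_card _ (hfin g hg), D.fixed g hg]
  rcases classification fix hfix hcard (odd_group D) (cyclic_stab D) g₀ hg₀ with
    ⟨h1, h2⟩ | ⟨C, F, h⟩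
  · left
    refine ⟨h1, ?_, fun _ => h2⟩
    obtain ⟨g, hg⟩ := h1.exists_generator
    rw [← orderOf_eq_card_of_forall_mem_zpowers hg]
    have hg1 : g ≠ 1 := by
      rintro rfl
      obtain ⟨k, hk⟩ := Subgroup.mem_zpowers_iff.mp (hg g₀)
      rw [one_zpow] at hk
      exact hg₀ hk.symm
    have := order_elem D hg1
    simp only [Set.mem_insert_iff, Set.mem_singleton_iff]
    omega
  · right
    refine ⟨C, F, h, ?_⟩
    obtain ⟨c, hc⟩ := h.cyclic.exists_generator
    have hord : Nat.card C = orderOf (c : G) := by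
      rw [Subgroup.orderOf_coe, ← orderOf_eq_card_of_forall_mem_zpowers hc]
    have hc1 : (c : G) ≠ 1 := by
      intro h1
      apply h.ne_bot
      rw [← Subgroup.card_eq_one, hord, h1, orderOf_one]
    obtain ⟨g, hg⟩ : ∃ g, g ∉ C := by
      by_contra h1
      push Not at h1
      have h2 : C = ⊤ := (Subgroup.eq_top_iff' C).mpr h1
      have h3 := h.index
      rw [h2, Subgroup.index_top] at h3
      norm_num at h3
    obtain ⟨r, -, hr⟩ := (h.conj g hg).2
    have h5 : ¬ 5 ∣ Nat.card C := by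
      intro h5
      have h6 : (r ^ 2 + r + 1) % 5 = 0 := Nat.mod_eq_zero_of_dvd (h5.trans hr)
      have h7 : r % 5 < 5 := Nat.mod_lt _ (by norm_num)
      rw [Nat.add_mod, Nat.add_mod (r ^ 2), Nat.pow_mod] at h6
      generalize r % 5 = t at h6 h7
      interval_cases t <;> omega
    have h11 : ¬ 11 ∣ Nat.card C := by
      intro h5
      have h6 : (r ^ 2 + r + 1) % 11 = 0 := Nat.mod_eq_zero_of_dvd (h5.trans hr)
      have h7 : r % 11 < 11 := Nat.mod_lt _ (by norm_num)
      rw [Nat.add_mod, Nat.add_mod (r ^ 2), Nat.pow_mod] at h6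
      generalize r % 11 = t at h6 h7
      interval_cases t <;> omega
    have := order_elem D hc1
    rw [← hord] at this
    simp only [Set.mem_insert_iff, Set.mem_singleton_iff]
    omega

end Pool.Agent.H18.PG
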