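import Mathlib
import Pool.Agent.H18.SY.Cyclic

/-!
# Symplectic actions on a homotopy `ℂP²` other than `ℂP²`
-/

namespace Pool.Agent.H18.PG

open Matrix Pool.Agent.H18.SY

variable {G M : Type} [Group G] [MulAction G M]

/-- `M` has the homology of `ℂP²`: `σ = 1`. Its intersection form is positive definite, and a
symplectic surface is not null-homologous, so it has positive self-intersection number; the surfaces
of fixed points are not empty and consist of fixed points where the differential has eigenvalue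
`1`. -/
structure PlaneLike (D : SymplecticAction G M) : Prop where
  one : D.σ = 1
  square : ∀ g, g ≠ 1 → ∀ S ∈ D.surfaces g, 0 < S.square
  carrier : ∀ g, g ≠ 1 → ∀ S ∈ D.surfaces g, ∃ x, g • x = x ∧ (1 - D.lin g x).det = 0

variable (D : SymplecticAction G M)

/-- an element of prime order has no surface of fixed points -/
lemma surfaces_prime (hD : D.NotPlane) (hP : PlaneLike D) {g : G} (hg : (orderOf g).Prime) :
    D.surfaces g = [] := by
  have hg1 : g ≠ 1 := SymplecticAction.ne_one_of_order rfl hg.one_lt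
  have h := D.edmonds g hg
  have h1 : moved (D.Hp g) = 0 := by rw [D.Hp_of_one hP.one g, moved_one]
  have h2 : moved (D.Hm g) = 0 := by
    have h3 : moved (D.Hm g) ≤ D.σ - 1 := by
      unfold moved
      exact (Matrix.rank_le_width _)
    have h4 := hP.one
    omega
  rw [h1, h2, add_zero] at h
  have h3 : ((D.surfaces g).map fun S => 2 * S.genus).sum = 0 := by
    have h4 : 0 < orderOf g - 1 := by have := hg.one_lt; omega
    rcases Nat.eq_zero_or_pos (((D.surfaces g).map fun S => 2 * S.genus).sum) with h5 | h5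
    · exact h5
    · have := Nat.mul_pos h4 h5
      omega
  rw [List.eq_nil_iff_forall_not_mem]
  intro S hS
  have h6 : 2 * S.genus ≤ ((D.surfaces g).map fun S => 2 * S.genus).sum :=
    List.le_sum_of_mem (List.mem_map.mpr ⟨S, hS, rfl⟩)
  have h7 := hP.square g hg1 S hS
  have h8 : S.genus = 0 := by omega
  rcases hD g hg1 S hS with h9 | h9
  · omega
  · rw [h8] at h9
    push_cast at h9
    omega

/-- an eigenvector with eigenvalue `1` -/
lemma det_pow {g : G} {x : M} (hx : g • x = x) (hdet : (1 - D.lin g x).det = 0) (k : ℕ) :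
    (1 - D.lin (g ^ k) x).det = 0 := by
  obtain ⟨v, hv0, hv⟩ := Matrix.exists_mulVec_eq_zero_iff.mpr hdet
  rw [Matrix.sub_mulVec, Matrix.one_mulVec, sub_eq_zero] at hv
  have h := D.lin_pow (MulAction.stabilizer G x) x (fun g hg => hg) (g := g) hx v hv.symm k
  rw [← Matrix.exists_mulVec_eq_zero_iff]
  refine ⟨v, hv0, ?_⟩
  rw [Matrix.sub_mulVec, Matrix.one_mulVec, h, sub_self]

/-- the differential has no eigenvalue `1` -/
lemma det_ne [Finite G] (hD : D.NotPlane) (hP : PlaneLike D) {g : G} (hg : g ≠ 1) {x : M}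
    (hx : g • x = x) : (1 - D.lin g x).det ≠ 0 := by
  intro hdet
  have h1 : orderOf g ≠ 1 := by rwa [ne_eq, orderOf_eq_one_iff]
  obtain ⟨p, hp, hpg⟩ := Nat.exists_prime_and_dvd h1
  have hpos : 0 < orderOf g := orderOf_pos g
  have h2 : orderOf (g ^ (orderOf g / p)) = p :=
    orderOf_pow_orderOf_div hpos.ne' hpg
  have h3 : g ^ (orderOf g / p) ≠ 1 := SymplecticAction.ne_one_of_order h2 hp.one_lt
  have h4 := det_pow D hx hdet (orderOf g / p)
  have h5 : g ^ (orderOf g / p) • x = x := by
    have : g ^ (orderOf g / p) ∈ MulAction.stabilizer G x :=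
      (MulAction.stabilizer G x).pow_mem hx _
    exact this
  obtain ⟨S, hS, _⟩ := D.mem_surfaces _ h3 x h5 h4
  rw [surfaces_prime D hD hP (by rw [h2]; exact hp)] at hS
  simp at hS

/-- there is no surface of fixed points -/
lemma surfaces_nil [Finite G] (hD : D.NotPlane) (hP : PlaneLike D) {g : G} (hg : g ≠ 1) :
    D.surfaces g = [] := by
  rw [List.eq_nil_iff_forall_not_mem]
  intro S hS
  obtain ⟨x, hx, hdet⟩ := hP.carrier g hg S hS
  exact det_ne D hD hP hg hx hdet

/-- the fixed points of `g ≠ 1` -/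
lemma mem_iso_iff [Finite G] (hD : D.NotPlane) (hP : PlaneLike D) {g : G} (hg : g ≠ 1) (x : M) :
    x ∈ D.iso g ↔ g • x = x := by
  rw [D.mem_iso g hg x]
  exact ⟨fun h => h.1, fun h => ⟨h, det_ne D hD hP hg h⟩⟩

/-- every `g ≠ 1` has three fixed points -/
lemma card_iso [Finite G] (hD : D.NotPlane) (hP : PlaneLike D) {g : G} (hg : g ≠ 1) :
    (D.iso g).card = 3 := by
  have h := D.lefschetz g hg
  rw [surfaces_nil D hD hP hg, D.Hp_of_one hP.one g, Matrix.trace_one, Fintype.card_fin,
    D.cast_pos_dim] at h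
  have h1 : (D.Hm g).trace = 0 := by
    unfold Matrix.trace
    apply Finset.sum_eq_zero
    intro i _
    exfalso
    have h5 := i.2
    have h6 := hP.one
    omega
  have h3 : (D.σ : ℝ) = 1 := by rw [hP.one, Nat.cast_one]
  rw [h1, h3] at h
  simp only [List.map_nil, List.sum_nil] at h
  have h2 : ((D.iso g).card : ℝ) = 3 := by linarith
  exact_mod_cast h2

lemma odd_card [Finite G] (hD : D.NotPlane) (hP : PlaneLike D) : Odd (Nat.card G) :=
  D.odd_card hD (D.Hp_of_one hP.one)

end Pool.Agent.H18.PG
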