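import Pool.Agent.H93.PF.Main

/-!
# The weights of `H` for the orders fifteen and thirty-three
-/

namespace Pool.Agent.H18.PG

open Pool.Agent.H93.PF

/-- The normalised form of the relations between the weights `0, 1, t` and `0, p, q`. -/
lemma normalise {n : ℕ} {w h : Fin 3 → ZMod n} {c : ZMod n}
    (hw : ∀ i j, i ≠ j → IsUnit (w i - w j))
    (hc : ∀ i, (w (i + 1) - w i) + (w (i + 2) - w i) = 3 * h i + c)
    (he : ∀ i, (w (i + 1) - w i) * (w (i + 2) - w i) = (h i - h (i + 1)) * (h i - h (i + 2))) :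
    ∃ t p q : ZMod n, w 2 - w 0 = t * (w 1 - w 0) ∧ h 1 - h 0 = p * (w 1 - w 0) ∧
      h 2 - h 0 = q * (w 1 - w 0) ∧ 3 * (p + 1) = 0 ∧ 3 * (q + t) = 0 ∧ t = p * q ∧
      -(t - 1) = (p - q) * p := by
  obtain ⟨u, hu⟩ := hw 1 0 (by decide)
  have hv : (w 1 - w 0) * (↑u⁻¹ : ZMod n) = 1 := by rw [← hu, Units.mul_inv]
  have c0 := hc 0
  have c1 := hc 1
  have c2 := hc 2
  have e0 := he 0
  have e1 := he 1
  simp only [Fin.isValue, zero_add, Fin.reduceAdd] at c0 c1 c2 e0 e1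
  set v : ZMod n := (↑u⁻¹ : ZMod n) with hvd
  refine ⟨(w 2 - w 0) * v, (h 1 - h 0) * v, (h 2 - h 0) * v, ?_, ?_, ?_, ?_, ?_, ?_, ?_⟩
  · linear_combination -(w 2 - w 0) * hv
  · linear_combination -(h 1 - h 0) * hv
  · linear_combination -(h 2 - h 0) * hv
  · linear_combination v * c0 - v * c1 - 3 * hv
  · linear_combination v * c0 - v * c2
  · linear_combination v ^ 2 * e0 - (w 2 - w 0) * v * hv
  · linear_combination v ^ 2 * e1 + ((w 2 - w 0) * v - (w 1 - w 0) * v - 1) * hv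

/-- From the normalised form back to the weights. -/
lemma of_ratio {n : ℕ} {w h : Fin 3 → ZMod n} {t a : ZMod n}
    (ht : w 2 - w 0 = t * (w 1 - w 0)) (hp : h 1 - h 0 = a * (w 1 - w 0))
    (hq : h 2 - h 0 = (a * t) * (w 1 - w 0)) : ∃ e, ∀ i, h i = a * w i + e := by
  refine ⟨h 0 - a * w 0, fun i => ?_⟩
  fin_cases i
  · show h 0 = a * w 0 + (h 0 - a * w 0)
    ring
  · show h 1 = a * w 1 + (h 0 - a * w 0)
    linear_combination hp
  · show h 2 = a * w 2 + (h 0 - a * w 0)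
    linear_combination hq - a * ht

section Decide

set_option maxRecDepth 100000

lemma p_fifteen : ∀ p : ZMod 15, 3 * (p + 1) = 0 → p = -1 ∨ p = 4 ∨ p = 9 := by decide

lemma q_fifteen : ∀ x : ZMod 15, 3 * x = 0 → x = 0 ∨ x = 5 ∨ x = 10 := by decide

lemma p_thirtythree : ∀ p : ZMod 33, 3 * (p + 1) = 0 → p = -1 ∨ p = 10 ∨ p = 21 := by decide

lemma q_thirtythree : ∀ x : ZMod 33, 3 * x = 0 → x = 0 ∨ x = 11 ∨ x = 22 := by decide

lemma t_fifteen : ∀ t : ZMod 15, (t.val.Coprime 15 ∧ (t - 1).val.Coprime 15) →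
    ∀ p ∈ ({-1, 4, 9} : Finset (ZMod 15)), ∀ x ∈ ({0, 5, 10} : Finset (ZMod 15)),
    t = p * (-t + x) → -(t - 1) = (p - (-t + x)) * p →
    (p = -1 ∧ -t + x = -1 * t) ∨ (p = 4 ∧ -t + x = 4 * t) := by decide

lemma t_thirtythree : ∀ t : ZMod 33, (t.val.Coprime 33 ∧ (t - 1).val.Coprime 33) →
    ∀ p ∈ ({-1, 10, 21} : Finset (ZMod 33)), ∀ x ∈ ({0, 11, 22} : Finset (ZMod 33)),
    t = p * (-t + x) → -(t - 1) = (p - (-t + x)) * p →
    (p = -1 ∧ -t + x = -1 * t) ∨ (p = 10 ∧ -t + x = 10 * t) := by decide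

end Decide

/-- The weights of `H` for the order fifteen. -/
lemma sign_fifteen {w h : Fin 3 → ZMod 15} {c : ZMod 15}
    (hw : ∀ i j, i ≠ j → IsUnit (w i - w j))
    (hc : ∀ i, (w (i + 1) - w i) + (w (i + 2) - w i) = 3 * h i + c)
    (he : ∀ i, (w (i + 1) - w i) * (w (i + 2) - w i) = (h i - h (i + 1)) * (h i - h (i + 2))) :
    (∃ e, ∀ i, h i = -w i + e) ∨ ∃ e, ∀ i, h i = 4 * w i + e := by
  obtain ⟨t, p, q, h1, h2, h3, h4, h5, h6, h7⟩ := normalise hw hc he
  obtain ⟨t', ht', u1, u2⟩ := exists_ratio hw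
  have htt : t = t' := by
    have h8 : t * (w 1 - w 0) = t' * (w 1 - w 0) := by rw [← h1, ← ht']
    exact (hw 1 0 (by decide)).mul_right_cancel h8
  subst htt
  have hq : q = -t + (q + t) := by ring
  have hp' : p ∈ ({-1, 4, 9} : Finset (ZMod 15)) := by
    rcases p_fifteen p h4 with rfl | rfl | rfl <;> decide
  have hx' : q + t ∈ ({0, 5, 10} : Finset (ZMod 15)) := by
    rcases q_fifteen _ h5 with h | h | h <;> rw [h] <;> decide
  have hcop : t.val.Coprime 15 ∧ (t - 1).val.Coprime 15 := by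
    constructor
    · have : IsUnit ((t.val : ℕ) : ZMod 15) := by rwa [ZMod.natCast_zmod_val]
      exact (ZMod.isUnit_iff_coprime _ _).1 this
    · have : IsUnit (((t - 1).val : ℕ) : ZMod 15) := by rwa [ZMod.natCast_zmod_val]
      exact (ZMod.isUnit_iff_coprime _ _).1 this
  rcases t_fifteen t hcop p hp' (q + t) hx' (by rw [← hq]; exact h6) (by rw [← hq]; exact h7)
    with ⟨a, b⟩ | ⟨a, b⟩
  · left
    rw [← hq] at b
    rw [a] at h2
    rw [b] at h3
    obtain ⟨e, he⟩ := of_ratio h1 h2 h3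
    exact ⟨e, fun i => by rw [he i]; ring⟩
  · right
    rw [← hq] at b
    rw [a] at h2
    rw [b] at h3
    exact of_ratio h1 h2 h3

/-- The weights of `H` for the order thirty-three. -/
lemma sign_thirtythree {w h : Fin 3 → ZMod 33} {c : ZMod 33}
    (hw : ∀ i j, i ≠ j → IsUnit (w i - w j))
    (hc : ∀ i, (w (i + 1) - w i) + (w (i + 2) - w i) = 3 * h i + c)
    (he : ∀ i, (w (i + 1) - w i) * (w (i + 2) - w i) = (h i - h (i + 1)) * (h i - h (i + 2))) :
    (∃ e, ∀ i, h i = -w i + e) ∨ ∃ e, ∀ i, h i = 10 * w i + e := by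
  obtain ⟨t, p, q, h1, h2, h3, h4, h5, h6, h7⟩ := normalise hw hc he
  obtain ⟨t', ht', u1, u2⟩ := exists_ratio hw
  have htt : t = t' := by
    have h8 : t * (w 1 - w 0) = t' * (w 1 - w 0) := by rw [← h1, ← ht']
    exact (hw 1 0 (by decide)).mul_right_cancel h8
  subst htt
  have hq : q = -t + (q + t) := by ring
  have hp' : p ∈ ({-1, 10, 21} : Finset (ZMod 33)) := by
    rcases p_thirtythree p h4 with rfl | rfl | rfl <;> decide
  have hx' : q + t ∈ ({0, 11, 22} : Finset (ZMod 33)) := by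
    rcases q_thirtythree _ h5 with h | h | h <;> rw [h] <;> decide
  have hcop : t.val.Coprime 33 ∧ (t - 1).val.Coprime 33 := by
    constructor
    · have : IsUnit ((t.val : ℕ) : ZMod 33) := by rwa [ZMod.natCast_zmod_val]
      exact (ZMod.isUnit_iff_coprime _ _).1 this
    · have : IsUnit (((t - 1).val : ℕ) : ZMod 33) := by rwa [ZMod.natCast_zmod_val]
      exact (ZMod.isUnit_iff_coprime _ _).1 this
  rcases t_thirtythree t hcop p hp' (q + t) hx' (by rw [← hq]; exact h6) (by rw [← hq]; exact h7)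
    with ⟨a, b⟩ | ⟨a, b⟩
  · left
    rw [← hq] at b
    rw [a] at h2
    rw [b] at h3
    obtain ⟨e, he⟩ := of_ratio h1 h2 h3
    exact ⟨e, fun i => by rw [he i]; ring⟩
  · right
    rw [← hq] at b
    rw [a] at h2
    rw [b] at h3
    exact of_ratio h1 h2 h3

end Pool.Agent.H18.PG
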