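import Pool.Agent.H18.PG.Rep

/-!
# The group of order sixty-three
-/

namespace Pool.Agent.H18.PG

open MulAction Pool.Agent.H93.PF

/-- `2 ^ k` modulo seven. -/
def two (k : ZMod 3) : ZMod 7 := if k = 0 then 1 else if k = 1 then 2 else 4

lemma two_add : ∀ k l : ZMod 3, two (k + l) = two k * two l := by decide

/-- The product of a group of order three and the group of order twenty-one which is not cyclic. -/
@[ext] structure G63 where
  c : ZMod 3
  k : ZMod 3
  b : ZMod 7
deriving DecidableEq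

instance : Group G63 where
  mul x y := ⟨x.c + y.c, x.k + y.k, two x.k * y.b + x.b⟩
  one := ⟨0, 0, 0⟩
  inv x := ⟨-x.c, -x.k, -(two (-x.k) * x.b)⟩
  mul_assoc x y z := by
    show G63.mk _ _ _ = G63.mk _ _ _
    ext
    · show x.c + y.c + z.c = x.c + (y.c + z.c)
      ring
    · show x.k + y.k + z.k = x.k + (y.k + z.k)
      ring
    · show two (x.k + y.k) * z.b + (two x.k * y.b + x.b) =
        two x.k * (two y.k * z.b + y.b) + x.b
      rw [two_add]
      ring
  one_mul x := by
    show G63.mk _ _ _ = x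
    ext
    · show 0 + x.c = x.c
      ring
    · show 0 + x.k = x.k
      ring
    · show two 0 * x.b + 0 = x.b
      rw [show two 0 = 1 from rfl]
      ring
  mul_one x := by
    show G63.mk _ _ _ = x
    ext
    · show x.c + 0 = x.c
      ring
    · show x.k + 0 = x.k
      ring
    · show two x.k * 0 + x.b = x.b
      ring
  inv_mul_cancel x := by
    show G63.mk _ _ _ = G63.mk _ _ _
    ext
    · show -x.c + x.c = 0
      ring
    · show -x.k + x.k = 0
      ring
    · show two (-x.k) * x.b + -(two (-x.k) * x.b) = 0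
      ring

lemma mul_def (x y : G63) : x * y = ⟨x.c + y.c, x.k + y.k, two x.k * y.b + x.b⟩ := rfl

lemma one_def : (1 : G63) = ⟨0, 0, 0⟩ := rfl

/-- The group as a product of sets. -/
def equiv63 : G63 ≃ ZMod 3 × ZMod 3 × ZMod 7 where
  toFun x := (x.c, x.k, x.b)
  invFun x := ⟨x.1, x.2.1, x.2.2⟩
  left_inv _ := rfl
  right_inv _ := rfl

instance : Fintype G63 := Fintype.ofEquiv _ equiv63.symm

lemma card63 : Nat.card G63 = 63 := by
  rw [Nat.card_congr equiv63, Nat.card_prod, Nat.card_prod, Nat.card_zmod, Nat.card_zmod]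

/-- The points with non-trivial stabilizers. -/
abbrev M63 : Type := ZMod 3 ⊕ (ZMod 3 × ZMod 3 × ZMod 7)

/-- The action. -/
def act63 (g : G63) : M63 → M63
  | Sum.inl x => Sum.inl (x + g.k)
  | Sum.inr (i, x, y) => Sum.inr (i, x + g.c + i * g.k, two g.k * y + g.b)

instance : MulAction G63 M63 where
  smul := act63
  one_smul x := by
    show act63 1 x = x
    rcases x with x | ⟨i, x, y⟩
    · show Sum.inl (x + 0) = _
      rw [add_zero]
    · show Sum.inr (i, x + 0 + i * 0, two 0 * y + 0) = _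
      rw [show two 0 = 1 from rfl, mul_zero, add_zero, add_zero, one_mul, add_zero]
  mul_smul g h x := by
    show act63 (g * h) x = act63 g (act63 h x)
    rcases x with x | ⟨i, x, y⟩
    · show Sum.inl (x + (g.k + h.k)) = Sum.inl (x + h.k + g.k)
      congr 1
      ring
    · show Sum.inr (i, x + (g.c + h.c) + i * (g.k + h.k),
        two (g.k + h.k) * y + (two g.k * h.b + g.b)) =
        Sum.inr (i, x + h.c + i * h.k + g.c + i * g.k, two g.k * (two h.k * y + h.b) + g.b)
      rw [two_add]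
      congr 3 <;> ring

lemma smul_inl (g : G63) (x : ZMod 3) : g • (Sum.inl x : M63) = Sum.inl (x + g.k) := rfl

lemma smul_inr (g : G63) (i x : ZMod 3) (y : ZMod 7) :
    g • (Sum.inr (i, x, y) : M63) = Sum.inr (i, x + g.c + i * g.k, two g.k * y + g.b) := rfl

/-- A generator of the stabilizer. -/
def gen : M63 → G63
  | Sum.inl _ => ⟨1, 0, 1⟩
  | Sum.inr (i, _, y) => ⟨-i, 1, -y⟩

/-- The exponent. -/
def expn (g : G63) : M63 → ℕ
  | Sum.inl _ => (7 * g.c.val + 15 * g.b.val) % 21
  | Sum.inr _ => g.k.val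

section Decide

set_option maxRecDepth 1000000

lemma count63 : ∀ c k : ZMod 3, ∀ b : ZMod 7, (c, k, b) ≠ (0, 0, 0) →
    (Finset.univ.filter (fun x : M63 => act63 ⟨c, k, b⟩ x = x)).card = 3 := by decide

lemma pow63 : ∀ c k : ZMod 3, ∀ b : ZMod 7, (⟨c, k, b⟩ : G63) ^ 21 = 1 := by decide

lemma gen_inl : ∀ x c k : ZMod 3, ∀ b : ZMod 7,
    act63 ⟨c, k, b⟩ (Sum.inl x) = Sum.inl x →
    gen (Sum.inl x) ^ expn ⟨c, k, b⟩ (Sum.inl x) = ⟨c, k, b⟩ := by decide

lemma gen_inr : ∀ i x : ZMod 3, ∀ y : ZMod 7, ∀ c k : ZMod 3, ∀ b : ZMod 7,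
    act63 ⟨c, k, b⟩ (Sum.inr (i, x, y)) = Sum.inr (i, x, y) →
    gen (Sum.inr (i, x, y)) ^ k.val = ⟨c, k, b⟩ := by decide

lemma gen_fix : ∀ x : M63, act63 (gen x) x = x := by decide

end Decide

lemma smul_def' (g : G63) (x : M63) : g • x = act63 g x := rfl

lemma fixed63 (g : G63) (hg : g ≠ 1) : (fixedBy M63 g).ncard = 3 := by
  have h1 : fixedBy M63 g = ((Finset.univ.filter (fun x : M63 => act63 g x = x) : Finset M63) :
      Set M63) := by
    ext x
    simp [mem_fixedBy, smul_def']
  rw [h1, Set.ncard_coe_finset]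
  refine count63 g.c g.k g.b ?_
  intro h
  apply hg
  have h2 : g.c = 0 := congrArg Prod.fst h
  have h3 : g.k = 0 := congrArg (fun z => z.2.1) h
  have h4 : g.b = 0 := congrArg (fun z => z.2.2) h
  rw [one_def]
  ext
  · exact h2
  · exact h3
  · exact h4

lemma cyclic63 (x : M63) : IsCyclic (stabilizer G63 x) := by
  refine ⟨⟨gen x, ?_⟩, ?_⟩
  · exact gen_fix x
  · rintro ⟨g, hg⟩
    have hg' : act63 g x = x := hg
    obtain ⟨m, hm⟩ : ∃ m : ℕ, gen x ^ m = g := by
      rcases x with x | ⟨i, x, y⟩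
      · exact ⟨_, gen_inl x g.c g.k g.b hg'⟩
      · exact ⟨_, gen_inr i x y g.c g.k g.b hg'⟩
    refine ⟨(m : ℤ), Subtype.ext ?_⟩
    show (((⟨gen x, gen_fix x⟩ : stabilizer G63 x) ^ (m : ℤ) : stabilizer G63 x) : G63) = g
    rw [zpow_natCast, Subgroup.coe_pow]
    exact hm

lemma order63 (g : G63) (hg : g ≠ 1) : orderOf g = 3 ∨ orderOf g = 7 ∨ orderOf g = 21 := by
  have h1 : orderOf g ∣ 21 := orderOf_dvd_of_pow_eq_one (pow63 g.c g.k g.b)
  have h2 : orderOf g ≠ 1 := fun h => hg (orderOf_eq_one_iff.1 h)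
  have h3 : orderOf g ∈ Nat.divisors 21 := Nat.mem_divisors.2 ⟨h1, by norm_num⟩
  have h4 : ∀ m ∈ Nat.divisors 21, m ≠ 1 → m = 3 ∨ m = 7 ∨ m = 21 := by decide
  exact h4 _ h3 h2

/-- The data of the subgroups of the group of order sixty-three without elements of order
twenty-one. -/
theorem data63 (K : Subgroup G63) (hK : ∀ g ∈ K, orderOf g ≠ 21) :
    Nonempty (SymmetryGroup K M63) := by
  refine of_action ?_ ?_ ?_ ?_
  · refine Odd.of_dvd_nat ?_ (Subgroup.card_subgroup_dvd_card K)
    rw [card63]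
    decide
  · intro g hg
    exact fixed63 (g : G63) fun h => hg (Subtype.ext h)
  · intro x
    have := cyclic63 x
    refine isCyclic_of_injective (G' := stabilizer G63 x)
      (show stabilizer K x →* stabilizer G63 x from
        { toFun := fun g => ⟨((g : K) : G63), g.2⟩
          map_one' := rfl
          map_mul' := fun _ _ => rfl }) ?_
    intro a b hab
    have h1 : (((a : K) : G63)) = ((b : K) : G63) :=
      congrArg (fun z : stabilizer G63 x => (z : G63)) hab
    exact Subtype.ext (Subtype.ext h1)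
  · intro g hg
    rw [← Subgroup.orderOf_coe]
    rcases order63 (g : G63) fun h => hg (Subtype.ext h) with h | h | h <;> rw [h]
    · exact plane_three
    · exact plane_of_prime (Or.inr (Or.inl rfl))
    · exact absurd h (hK _ g.2)

end Pool.Agent.H18.PG
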